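import Pool.Agent.W_63dac5_h37.Words

/-!
# Serving demands: positions of the stack, list tools (row 568, B8)
-/

namespace Pool.Agent.W_63dac5_h37A

open Pool.Agent.W_MP_63dac5_pr Pool.Agent.W_63dac5_h37

/-- the parts of the demands `v` which are not served by the list `a`. -/
def rst : List ℕ → List ℕ → List ℕ
  | [], _ => []
  | l :: ls, a => (l - nz a) :: rst ls (serve l a)

lemma srvL_append_stack (v a b : List ℕ) : srvL v (a ++ b) = srvL v a ++ srvL (rst v a) b := by
  induction v generalizing a b with
  | nil => rfl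
  | cons l ls ih => simp only [srvL, rst, serve_append, ih]

lemma rst_append (v v' a : List ℕ) : rst (v ++ v') a = rst v a ++ rst v' (srvL v a) := by
  induction v generalizing a with
  | nil => rfl
  | cons l ls ih => simp only [List.cons_append, rst, srvL, ih]

lemma srvL_append (v v' a : List ℕ) : srvL (v ++ v') a = srvL v' (srvL v a) := by
  induction v generalizing a with
  | nil => rfl
  | cons l ls ih => simp only [List.cons_append, srvL, ih]

lemma okL_append (v v' a : List ℕ) : okL (v ++ v') a ↔ okL v a ∧ okL v' (srvL v a) := by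
  induction v generalizing a with
  | nil => simp [okL, srvL]
  | cons l ls ih => simp only [List.cons_append, okL, srvL, ih, and_assoc]

lemma srvL_nil_right (v : List ℕ) : srvL v [] = [] := by
  induction v with
  | nil => rfl
  | cons l ls ih =>
    have : serve l [] = [] := by cases l <;> simp [serve]
    simp only [srvL, this, ih]

lemma serve_forall₂ (l : ℕ) (a : List ℕ) : List.Forall₂ (· ≤ ·) (serve l a) a := by
  induction a generalizing l with
  | nil => cases l <;> simp [serve]
  | cons x t ih =>
    cases l with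
    | zero =>
      rw [serve_zero]
      exact List.forall₂_same.2 fun _ _ => le_rfl
    | succ l =>
      cases x with
      | zero => simp only [serve]; exact List.Forall₂.cons le_rfl (ih _)
      | succ x => simp only [serve]; exact List.Forall₂.cons (Nat.le_succ x) (ih _)

lemma forall₂_le_trans {a b c : List ℕ} (h : List.Forall₂ (· ≤ ·) a b)
    (h' : List.Forall₂ (· ≤ ·) b c) : List.Forall₂ (· ≤ ·) a c := by
  induction h generalizing c with
  | nil => cases h'; exact List.Forall₂.nil
  | cons h1 h2 ih =>
    cases h' with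
    | cons h3 h4 => exact List.Forall₂.cons (h1.trans h3) (ih h4)

lemma srvL_forall₂ (v a : List ℕ) : List.Forall₂ (· ≤ ·) (srvL v a) a := by
  induction v generalizing a with
  | nil => exact List.forall₂_same.2 fun _ _ => le_rfl
  | cons l ls ih => exact forall₂_le_trans (ih _) (serve_forall₂ l a)

lemma rst_forall₂ (v a : List ℕ) : List.Forall₂ (· ≤ ·) (rst v a) v := by
  induction v generalizing a with
  | nil => exact List.Forall₂.nil
  | cons l ls ih => exact List.Forall₂.cons (Nat.sub_le _ _) (ih _)

lemma srvL_zero {w : List ℕ} (h : w.sum = 0) (b : List ℕ) : srvL w b = b := by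
  induction w generalizing b with
  | nil => rfl
  | cons l ls ih =>
    simp only [List.sum_cons] at h
    have h1 : l = 0 := by omega
    subst h1
    simp only [srvL, serve_zero]
    exact ih (by omega) b

lemma le_serve_sum (l : ℕ) (b : List ℕ) : b.sum ≤ (serve l b).sum + l := by
  have := serve_sum l b
  omega

lemma le_srvL_sum (w b : List ℕ) : b.sum ≤ (srvL w b).sum + w.sum := by
  induction w generalizing b with
  | nil => simp [srvL]
  | cons l ls ih =>
    have h1 := le_serve_sum l b
    have h2 := ih (serve l b)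
    simp only [srvL, List.sum_cons]
    omega

lemma srvL_sum_le (w b : List ℕ) : (srvL w b).sum ≤ b.sum := by
  induction w generalizing b with
  | nil => simp [srvL]
  | cons l ls ih =>
    have h1 := serve_sum l b
    have h2 := ih (serve l b)
    simp only [srvL]
    omega

/-- the first demand which is not served by `a`. -/
lemma exists_first {v a : List ℕ} (h : (rst v a).sum ≠ 0) :
    ∃ v' l v'', v = v' ++ l :: v'' ∧ (rst v' a).sum = 0 ∧ nz (srvL v' a) < l := by
  induction v generalizing a with
  | nil => simp [rst] at h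
  | cons l ls ih =>
    by_cases h1 : nz a < l
    · exact ⟨[], l, ls, rfl, rfl, h1⟩
    · have h2 : l - nz a = 0 := by omega
      have h3 : (rst ls (serve l a)).sum ≠ 0 := by
        simp only [rst, List.sum_cons, h2, zero_add] at h
        exact h
      obtain ⟨v', l', v'', h4, h5, h6⟩ := ih h3
      refine ⟨l :: v', l', v'', by rw [h4]; rfl, ?_, h6⟩
      simp only [rst, List.sum_cons, h2, zero_add, h5]

/-- the first position which is not exhausted. -/
lemma exists_top {v a : List ℕ} (h : (srvL v a).sum ≠ 0) :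
    ∃ a1 o1 r2, a = a1 ++ o1 :: r2 ∧ (srvL v a1).sum = 0 ∧ nz (rst v a1) < o1 := by
  induction a using List.reverseRecOn with
  | nil => rw [srvL_nil_right] at h; simp at h
  | append_singleton b x ih =>
    by_cases h1 : (srvL v b).sum = 0
    · refine ⟨b, x, [], rfl, h1, ?_⟩
      rw [srvL_append_stack, srvL_singleton, List.sum_append, h1] at h
      simp only [List.sum_cons, List.sum_nil, zero_add, add_zero] at h
      omega
    · obtain ⟨a1, o1, r2, h2, h3, h4⟩ := ih h1
      exact ⟨a1, o1, r2 ++ [x], by rw [h2]; simp, h3, h4⟩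

/-- power sum. -/
noncomputable def PS (s : ℝ) (L : List ℕ) : ℝ := (L.map (fun x : ℕ => (x : ℝ) ^ s)).sum

lemma PS_nil (s : ℝ) : PS s [] = 0 := by simp [PS]

lemma PS_cons (s : ℝ) (x : ℕ) (L : List ℕ) : PS s (x :: L) = (x : ℝ) ^ s + PS s L := by simp [PS]

lemma PS_append (s : ℝ) (L L' : List ℕ) : PS s (L ++ L') = PS s L + PS s L' := by simp [PS]

lemma PS_nonneg (s : ℝ) (L : List ℕ) : 0 ≤ PS s L := by
  induction L with
  | nil => rw [PS_nil]
  | cons x L ih => rw [PS_cons]; positivity

lemma le_PS_of_mem {s : ℝ} {x : ℕ} {L : List ℕ} (h : x ∈ L) : (x : ℝ) ^ s ≤ PS s L := by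
  induction L with
  | nil => simp at h
  | cons y L ih =>
    rw [PS_cons]
    rcases List.mem_cons.1 h with rfl | h
    · have := PS_nonneg s L
      linarith
    · have := ih h
      have : (0 : ℝ) ≤ (y : ℝ) ^ s := by positivity
      linarith

lemma PS_mono {s : ℝ} (hs : 0 ≤ s) {a b : List ℕ} (h : List.Forall₂ (· ≤ ·) a b) :
    PS s a ≤ PS s b := by
  induction h with
  | nil => exact le_rfl
  | cons h1 _ ih =>
    rw [PS_cons, PS_cons]
    have := Real.rpow_le_rpow (by positivity) (Nat.cast_le (α := ℝ).2 h1) hs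
    linarith

/-- one entry. -/
lemma entry_le {s b : ℝ} (hs : 1 ≤ s) (hb : 0 < b) {x : ℝ} (hx : 0 ≤ x) :
    x ≤ b + b ^ (1 - s) * x ^ s := by
  rcases le_total x b with h | h
  · have : 0 ≤ b ^ (1 - s) * x ^ s := by positivity
    linarith
  · have hx0 : 0 < x := lt_of_lt_of_le hb h
    have h1 : x ^ (1 - s) ≤ b ^ (1 - s) := Real.rpow_le_rpow_of_nonpos hb h (by linarith)
    have h2 : x ^ (1 - s) * x ^ s = x := by
      rw [← Real.rpow_add hx0]
      simp
    have h3 : x ^ (1 - s) * x ^ s ≤ b ^ (1 - s) * x ^ s := by gcongr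
    linarith

/-- The sum is bounded by the number of nonzero entries and the power sum. -/
lemma sum_le_nz {s b : ℝ} (hs : 1 ≤ s) (hb : 0 < b) {U u : List ℕ}
    (h : List.Forall₂ (· ≤ ·) U u) : (U.sum : ℝ) ≤ nz U * b + b ^ (1 - s) * PS s u := by
  have hb' : 0 ≤ b ^ (1 - s) := by positivity
  induction h with
  | nil => simp [PS_nil, nz]
  | @cons x y U u h1 _ ih =>
    rw [PS_cons, List.sum_cons]
    have hy : (0 : ℝ) ≤ (y : ℝ) ^ s := by positivity
    rcases Nat.eq_zero_or_pos x with h0 | h0
    · subst h0
      simp only [nz, zero_add]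
      have : 0 ≤ b ^ (1 - s) * (y : ℝ) ^ s := by positivity
      nlinarith
    · obtain ⟨x', rfl⟩ : ∃ x', x = x' + 1 := ⟨x - 1, by omega⟩
      have h2 := entry_le hs hb (x := ((x' + 1 : ℕ) : ℝ)) (by positivity)
      have h3 : ((x' + 1 : ℕ) : ℝ) ^ s ≤ (y : ℝ) ^ s :=
        Real.rpow_le_rpow (by positivity) (Nat.cast_le (α := ℝ).2 h1) (by linarith)
      have h4 : b ^ (1 - s) * ((x' + 1 : ℕ) : ℝ) ^ s ≤ b ^ (1 - s) * (y : ℝ) ^ s := by gcongr
      simp only [nz]
      push_cast at h2 h4 ih ⊢
      nlinarith

end Pool.Agent.W_63dac5_h37A
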