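import Pool.Agent.W_63dac5_h37A.CloseA

/-!
# All demands can be served (row 568, B8)
-/

namespace Pool.Agent.W_63dac5_h37A

open Pool.Agent.W_MP_63dac5_pr Pool.Agent.W_63dac5_h37

/-- the real inequalities used in B8. -/
structure BPar (s κ θ c : ℝ) : Prop where
  s1 : 1 ≤ s
  κ0 : 0 ≤ κ
  c1 : 1 ≤ c
  R1 : ∀ X l : ℝ, c ≤ X → 0 ≤ l → l ^ s ≤ 2 * X ^ (1 + κ) → l * X ^ θ ≤ X / 4
  R2 : ∀ X : ℝ, c ≤ X → (X ^ θ) ^ (1 - s) * (2 * (2 * X) ^ (1 + κ)) ≤ X / 4

/-- the regularity of the stack and of the demands. -/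
structure BHyp (s κ c : ℝ) (u V : List ℕ) : Prop where
  hu : (V.sum : ℝ) + c ≤ u.sum
  H2 : ∀ t, t <:+ u → c ≤ (t.sum : ℝ) → PS s t ≤ 2 * (t.sum : ℝ) ^ (1 + κ)
  H3 : ∀ v t, V = v ++ t → PS s t ≤ 2 * ((u.sum : ℝ) - v.sum) ^ (1 + κ)

/-- splitting of a stack at its first position which is not exhausted. -/
lemma split_top {v a1 r2 : List ℕ} {o1 : ℕ} (hz : (srvL v a1).sum = 0) :
    ∃ W : List ℕ, srvL v (a1 ++ o1 :: r2) = srvL v a1 ++ W ∧
      List.Forall₂ (· ≤ ·) W (o1 :: r2) ∧ (srvL v (a1 ++ o1 :: r2)).sum = W.sum ∧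
      nz (srvL v (a1 ++ o1 :: r2)) = nz W := by
  refine ⟨srvL (rst v a1) (o1 :: r2), srvL_append_stack _ _ _, srvL_forall₂ _ _, ?_, ?_⟩
  · rw [srvL_append_stack, List.sum_append, hz, zero_add]
  · rw [srvL_append_stack, nz_append]
    have := nz_le_sum (srvL v a1)
    omega

theorem claim {s κ θ c : ℝ} (hP : BPar s κ θ c) {u V : List ℕ} (hH : BHyp s κ c u V) (n : ℕ) :
    ∀ v t : List ℕ, v.length = n → V = v ++ t → okL v u → ∀ (a : List ℕ) (o : ℕ) (r : List ℕ),
      u = a ++ o :: r → (srvL v a).sum = 0 → nz (rst v a) < o →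
      (((o :: r).sum : ℕ) : ℝ) ≤ 2 * ((u.sum : ℝ) - v.sum) := by
  induction n using Nat.strong_induction_on with
  | _ n IH =>
  intro v t hn hV hok a o r hu' hz ho
  have hs1 := hP.s1
  have hκ := hP.κ0
  have hc1 := hP.c1
  have hsum := okL_sum hok
  have hsplit : (srvL v u).sum = (srvL (rst v a) (o :: r)).sum := by
    rw [hu', srvL_append_stack, List.sum_append, hz, zero_add]
  have hO1 : (srvL v u).sum ≤ (o :: r).sum := by rw [hsplit]; exact srvL_sum_le _ _
  have hO2 : (o :: r).sum ≤ (srvL v u).sum + (rst v a).sum := by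
    rw [hsplit]; exact le_srvL_sum _ _
  set O : ℝ := (((o :: r).sum : ℕ) : ℝ) with hO
  set Hj : ℝ := (u.sum : ℝ) - v.sum with hHj
  have eHj : ((srvL v u).sum : ℝ) = Hj := by
    have : ((srvL v u).sum : ℝ) + v.sum = u.sum := by exact_mod_cast hsum
    rw [hHj]; linarith
  have hVv : (v.sum : ℝ) ≤ V.sum := by
    rw [hV, List.sum_append, Nat.cast_add]
    have : (0 : ℝ) ≤ (t.sum : ℝ) := by positivity
    linarith
  have hHc : c ≤ Hj := by have := hH.hu; rw [hHj]; linarith
  have hOH : Hj ≤ O := by rw [← eHj, hO]; exact_mod_cast hO1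
  have hOc : c ≤ O := hHc.trans hOH
  have hO0 : 0 < O := by linarith
  by_cases hw : (rst v a).sum = 0
  · rw [hw, add_zero] at hO2
    have : O ≤ Hj := by rw [← eHj, hO]; exact_mod_cast hO2
    linarith
  obtain ⟨v', l, v'', hv, hz', hl⟩ := exists_first hw
  have hok' : okL v' u := by
    rw [hv, okL_append] at hok
    exact hok.1
  have hsum' := okL_sum hok'
  set H1 : ℝ := (u.sum : ℝ) - v'.sum with hH1
  have eH1 : ((srvL v' u).sum : ℝ) = H1 := by
    have : ((srvL v' u).sum : ℝ) + v'.sum = u.sum := by exact_mod_cast hsum'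
    rw [hH1]; linarith
  have hsp1 : srvL v' u = srvL v' a ++ o :: r := by
    rw [hu', srvL_append_stack, srvL_zero hz']
  have eH1' : H1 = ((srvL v' a).sum : ℝ) + O := by
    rw [← eH1, hsp1, List.sum_append, hO, Nat.cast_add]
  have hH1O : O ≤ H1 := by
    rw [eH1']
    have : (0 : ℝ) ≤ ((srvL v' a).sum : ℝ) := by positivity
    linarith
  have hH1c : c ≤ H1 := hOc.trans hH1O
  have hH10 : 0 < H1 := by linarith
  have hV' : V = v' ++ (l :: v'' ++ t) := by rw [hV, hv]; simp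
  have h3 : PS s (l :: v'' ++ t) ≤ 2 * H1 ^ (1 + κ) := hH.H3 v' _ hV'
  have h3l : (l : ℝ) ^ s ≤ 2 * H1 ^ (1 + κ) :=
    (le_PS_of_mem (by simp)).trans h3
  have h3w : PS s (l :: v'') ≤ 2 * H1 ^ (1 + κ) := by
    have h4 := PS_append s (l :: v'') t
    have h5 := PS_nonneg s t
    linarith
  -- (i)
  have hi : H1 ≤ 2 * O := by
    by_cases ha : (srvL v' a).sum = 0
    · rw [eH1', ha]; push_cast; linarith
    obtain ⟨a1, o1, r2, ha1, hz1, ho1⟩ := exists_top ha
    have hu1 : u = a1 ++ o1 :: (r2 ++ o :: r) := by rw [hu', ha1]; simp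
    have hS := IH v'.length (by rw [← hn, hv]; simp) v' _ rfl hV' hok' a1 o1 (r2 ++ o :: r) hu1
      hz1 ho1
    set S1 : ℝ := (((o1 :: (r2 ++ o :: r)).sum : ℕ) : ℝ) with hS1
    have hsuf : (o1 :: (r2 ++ o :: r)) <:+ u := ⟨a1, hu1.symm⟩
    have hS1c : c ≤ S1 := by
      obtain ⟨W, -, hW2, hW3, -⟩ := split_top (r2 := r2 ++ o :: r) (o1 := o1) hz1
      rw [← hu1] at hW3
      have h5 : (srvL v' u).sum ≤ (o1 :: (r2 ++ o :: r)).sum := by
        rw [hu1, srvL_append_stack, List.sum_append, hz1, zero_add]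
        exact srvL_sum_le _ _
      have h6 : H1 ≤ S1 := by rw [← eH1, hS1]; exact_mod_cast h5
      linarith
    have hPS := hH.H2 _ hsuf hS1c
    have hPS2 : PS s (o1 :: r2) ≤ 2 * (2 * H1) ^ (1 + κ) := by
      have h5 : PS s (o1 :: (r2 ++ o :: r)) = PS s (o1 :: r2) + PS s (o :: r) := by
        rw [← PS_append]; rfl
      have h6 := PS_nonneg s (o :: r)
      have h7 : S1 ^ (1 + κ) ≤ (2 * H1) ^ (1 + κ) :=
        Real.rpow_le_rpow (by linarith) hS (by linarith)
      linarith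
    obtain ⟨W, -, hW2, hW3, hW4⟩ := split_top (r2 := r2) (o1 := o1) hz1
    rw [← ha1] at hW3 hW4
    set b := H1 ^ θ with hb
    have hb0 : 0 < b := Real.rpow_pos_of_pos hH10 _
    have h8 := sum_le_nz hs1 hb0 hW2
    have h9 : b ^ (1 - s) * PS s (o1 :: r2) ≤ H1 / 4 := by
      refine le_trans ?_ (hP.R2 H1 hH1c)
      gcongr
    have h10 : (nz W : ℝ) * b ≤ H1 / 4 := by
      refine le_trans ?_ (hP.R1 H1 l hH1c (by positivity) h3l)
      rw [hW4] at hl
      gcongr
    have h11 : ((srvL v' a).sum : ℝ) ≤ H1 / 2 := by rw [hW3]; linarith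
    linarith
  -- (iii)
  have hsufO : (o :: r) <:+ u := ⟨a, hu'.symm⟩
  have hPSO := hH.H2 _ hsufO hOc
  have ho2 : (o : ℝ) ^ s ≤ 2 * O ^ (1 + κ) := (le_PS_of_mem (by simp)).trans hPSO
  have hwsum : (rst v a).sum = (rst (l :: v'') (srvL v' a)).sum := by
    rw [hv, rst_append, List.sum_append, hz', zero_add]
  have hwnz : nz (rst v a) = nz (rst (l :: v'') (srvL v' a)) := by
    rw [hv, rst_append, nz_append]
    have := nz_le_sum (rst v' a)
    omega
  set b := O ^ θ with hb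
  have hb0 : 0 < b := Real.rpow_pos_of_pos hO0 _
  have h8 := sum_le_nz hs1 hb0 (rst_forall₂ (l :: v'') (srvL v' a))
  rw [← hwsum, ← hwnz] at h8
  have h9 : b ^ (1 - s) * PS s (l :: v'') ≤ O / 4 := by
    refine le_trans ?_ (hP.R2 O hOc)
    have : H1 ^ (1 + κ) ≤ (2 * O) ^ (1 + κ) := Real.rpow_le_rpow hH10.le hi (by linarith)
    have h10 : PS s (l :: v'') ≤ 2 * (2 * O) ^ (1 + κ) := by linarith
    gcongr
  have h10 : (nz (rst v a) : ℝ) * b ≤ O / 4 := by
    refine le_trans ?_ (hP.R1 O o hOc (by positivity) ho2)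
    gcongr
  have h11 : O ≤ Hj + (rst v a).sum := by
    rw [← eHj, hO]; exact_mod_cast hO2
  linarith

/-- All demands can be served. -/
theorem okL_of_BHyp {s κ θ c : ℝ} (hP : BPar s κ θ c) {u V : List ℕ} (hH : BHyp s κ c u V) :
    okL V u := by
  have key : ∀ v t : List ℕ, V = v ++ t → okL v u := by
    intro v
    induction v using List.reverseRecOn with
    | nil => intro _ _; trivial
    | append_singleton v l ih =>
      intro t hV
      have hV' : V = v ++ (l :: t) := by rw [hV]; simp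
      have hok := ih _ hV'
      rw [okL_append]
      refine ⟨hok, ?_, trivial⟩
      have hs1 := hP.s1
      have hκ := hP.κ0
      have hc1 := hP.c1
      have hsum := okL_sum hok
      set H : ℝ := (u.sum : ℝ) - v.sum with hHd
      have eH : ((srvL v u).sum : ℝ) = H := by
        have : ((srvL v u).sum : ℝ) + v.sum = u.sum := by exact_mod_cast hsum
        rw [hHd]; linarith
      have hVv : (v.sum : ℝ) ≤ V.sum := by
        rw [hV', List.sum_append, Nat.cast_add]
        have : (0 : ℝ) ≤ ((l :: t).sum : ℝ) := by positivity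
        linarith
      have hHc : c ≤ H := by have := hH.hu; rw [hHd]; linarith
      have hH0 : 0 < H := by linarith
      have hne : (srvL v u).sum ≠ 0 := by
        intro h0
        rw [h0] at eH
        push_cast at eH
        linarith
      obtain ⟨a1, o1, r2, hu1, hz1, ho1⟩ := exists_top hne
      have hS := claim hP hH v.length v _ rfl hV' hok a1 o1 r2 hu1 hz1 ho1
      set S1 : ℝ := (((o1 :: r2).sum : ℕ) : ℝ) with hS1
      have hsuf : (o1 :: r2) <:+ u := ⟨a1, hu1.symm⟩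
      have hS1c : c ≤ S1 := by
        have h5 : (srvL v u).sum ≤ (o1 :: r2).sum := by
          rw [hu1, srvL_append_stack, List.sum_append, hz1, zero_add]
          exact srvL_sum_le _ _
        have h6 : H ≤ S1 := by rw [← eH, hS1]; exact_mod_cast h5
        linarith
      have hPS := hH.H2 _ hsuf hS1c
      obtain ⟨W, -, hW2, hW3, hW4⟩ := split_top (r2 := r2) (o1 := o1) hz1
      rw [← hu1] at hW3 hW4
      set b := H ^ θ with hb
      have hb0 : 0 < b := Real.rpow_pos_of_pos hH0 _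
      have h8 := sum_le_nz hs1 hb0 hW2
      have h9 : b ^ (1 - s) * PS s (o1 :: r2) ≤ H / 4 := by
        refine le_trans ?_ (hP.R2 H hHc)
        have h7 : S1 ^ (1 + κ) ≤ (2 * H) ^ (1 + κ) :=
          Real.rpow_le_rpow (by linarith) hS (by linarith)
        have h10 : PS s (o1 :: r2) ≤ 2 * (2 * H) ^ (1 + κ) := by linarith
        gcongr
      have h3 : PS s (l :: t) ≤ 2 * H ^ (1 + κ) := hH.H3 v _ hV'
      have h10 : (l : ℝ) * b ≤ H / 4 :=
        hP.R1 H l hHc (by positivity) ((le_PS_of_mem (by simp)).trans h3)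
      rw [← hW3, eH] at h8
      have h11 : (l : ℝ) * b < nz W * b := by linarith
      have h12 : (l : ℝ) < nz W := lt_of_mul_lt_mul_right h11 hb0.le
      rw [hW4]
      exact_mod_cast h12.le
  exact key V [] (by simp)

end Pool.Agent.W_63dac5_h37A
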