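import Pool.Agent.W_63dac5_h37A.CloseA

/-!
# Good stacks (row 568, B5)
-/

namespace Pool.Agent.W_63dac5_h37A

open Pool.Agent.W_MP_63dac5_pr Pool.Agent.W_63dac5_h37

/-- the power sums of the bottom parts of the stack are controlled by their sums. -/
def Good (s κ : ℝ) (c0 : ℕ) (r : List ℕ) : Prop :=
  ∀ t, t <:+ r → c0 ≤ t.sum → PS s t ≤ ((t.sum : ℕ) : ℝ) ^ (1 + κ)

end Pool.Agent.W_63dac5_h37A
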