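import Pool.Agent.W_63dac5_h37A.CloseB
import Pool.Agent.W_63dac5_h37A.GoodDef
import Pool.Agent.W_63dac5_h37.Moments

/-!
# The closing word (row 568, B7)
-/

namespace Pool.Agent.W_63dac5_h37A

open Pool.Agent.W_MP_63dac5_pr Pool.Agent.W_63dac5_h37

lemma exists_rpow_ge {e : ℝ} (he : 0 < e) (M : ℝ) : ∃ c : ℝ, 1 ≤ c ∧ ∀ X, c ≤ X → M ≤ X ^ e := by
  obtain ⟨a, ha⟩ := Filter.eventually_atTop.1 ((tendsto_rpow_atTop he).eventually_ge_atTop M)
  exact ⟨max a 1, le_max_right _ _, fun X hX => ha X ((le_max_left _ _).trans hX)⟩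

lemma exists_BPar {s κ : ℝ} (hs1 : 1 < s) (hs2 : s ≤ 2) (hκ0 : 0 < κ)
    (hκ : κ ≤ (s - 1) ^ 2 / (4 * s)) : ∃ θ c, ∀ c', c ≤ c' → BPar s κ θ c' := by
  have hs0 : 0 < s := by linarith
  have hκ4 : κ ≤ (s - 1) / 4 := by
    refine hκ.trans ?_
    rw [div_le_div_iff₀ (by positivity) (by norm_num)]
    nlinarith
  have hκ1 : κ ≤ 1 := by linarith
  set θ := (s - 1) / (2 * s) with hθ
  have hθ0 : 0 < θ := by rw [hθ]; have : 0 < s - 1 := by linarith
                         positivity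
  obtain ⟨ca, hca1, hca⟩ := exists_rpow_ge (e := (s - 1) / (4 * s))
    (by have : 0 < s - 1 := by linarith
        positivity) 8
  obtain ⟨cb, hcb1, hcb⟩ := exists_rpow_ge (e := (s - 1) ^ 2 / (4 * s))
    (by have : 0 < s - 1 := by linarith
        positivity) 32
  refine ⟨θ, max ca cb, fun c' hc' => ⟨hs1.le, hκ0.le, ?_, ?_, ?_⟩⟩
  · exact hca1.trans ((le_max_left _ _).trans hc')
  · intro X l hX hl h
    have hXa : ca ≤ X := (le_max_left _ _).trans (hc'.trans hX)
    have hX1 : 1 ≤ X := hca1.trans hXa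
    have hX0 : 0 < X := by linarith
    have h1 : l ≤ 2 * X ^ ((1 + κ) / s) := by
      have h2 : l ^ s ≤ (2 * X ^ ((1 + κ) / s)) ^ s := by
        refine h.trans ?_
        rw [Real.mul_rpow (by norm_num) (by positivity), ← Real.rpow_mul hX0.le,
          div_mul_cancel₀ _ hs0.ne']
        have : (2 : ℝ) ≤ 2 ^ s := by
          calc (2 : ℝ) = 2 ^ (1 : ℝ) := (Real.rpow_one 2).symm
            _ ≤ 2 ^ s := Real.rpow_le_rpow_of_exponent_le (by norm_num) hs1.le
        gcongr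
      exact (Real.rpow_le_rpow_iff hl (by positivity) hs0).1 h2
    have h3 : l * X ^ θ ≤ 2 * X ^ ((1 + κ) / s) * X ^ θ := by gcongr
    have h4 : X ^ ((1 + κ) / s) * X ^ θ ≤ X ^ (1 - (s - 1) / (4 * s)) := by
      rw [← Real.rpow_add hX0]
      refine Real.rpow_le_rpow_of_exponent_le hX1 ?_
      rw [hθ]
      have e1 : (1 + κ) / s + (s - 1) / (2 * s) = (2 * (1 + κ) + (s - 1)) / (2 * s) := by
        field_simp
      have e2 : 1 - (s - 1) / (4 * s) = (3 * s + 1) / (4 * s) := by field_simp; ring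
      rw [e1, e2, div_le_div_iff₀ (by positivity) (by positivity)]
      nlinarith
    have h5 := hca X hXa
    have h6 : X ^ (1 - (s - 1) / (4 * s)) * X ^ ((s - 1) / (4 * s)) = X := by
      rw [← Real.rpow_add hX0]; simp
    have h7 : 0 < X ^ (1 - (s - 1) / (4 * s)) := by positivity
    have h8 : X ^ (1 - (s - 1) / (4 * s)) * 8 ≤ X := by
      calc _ ≤ X ^ (1 - (s - 1) / (4 * s)) * X ^ ((s - 1) / (4 * s)) := by gcongr
        _ = X := h6
    linarith
  · intro X hX
    have hXa : cb ≤ X := (le_max_right _ _).trans (hc'.trans hX)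
    have hX1 : 1 ≤ X := hcb1.trans hXa
    have hX0 : 0 < X := by linarith
    rw [← Real.rpow_mul hX0.le, Real.mul_rpow (by norm_num) hX0.le]
    have h1 : (2 : ℝ) ^ (1 + κ) ≤ 4 := by
      calc (2 : ℝ) ^ (1 + κ) ≤ 2 ^ (2 : ℝ) :=
            Real.rpow_le_rpow_of_exponent_le (by norm_num) (by linarith)
        _ = 4 := by norm_num
    have h2 : X ^ (θ * (1 - s)) * X ^ (1 + κ) ≤ X ^ (1 - (s - 1) ^ 2 / (4 * s)) := by
      rw [← Real.rpow_add hX0]
      refine Real.rpow_le_rpow_of_exponent_le hX1 ?_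
      have e1 : θ * (1 - s) = -(2 * ((s - 1) ^ 2 / (4 * s))) := by
        rw [hθ]; field_simp; ring
      rw [e1]
      linarith
    have h5 := hcb X hXa
    have h6 : X ^ (1 - (s - 1) ^ 2 / (4 * s)) * X ^ ((s - 1) ^ 2 / (4 * s)) = X := by
      rw [← Real.rpow_add hX0]; simp
    have h7 : 0 < X ^ (1 - (s - 1) ^ 2 / (4 * s)) := by positivity
    have h8 : X ^ (1 - (s - 1) ^ 2 / (4 * s)) * 32 ≤ X := by
      calc _ ≤ X ^ (1 - (s - 1) ^ 2 / (4 * s)) * X ^ ((s - 1) ^ 2 / (4 * s)) := by gcongr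
        _ = X := h6
    have h9 : 0 < X ^ (θ * (1 - s)) * X ^ (1 + κ) := by positivity
    calc X ^ (θ * (1 - s)) * (2 * (2 ^ (1 + κ) * X ^ (1 + κ)))
        = 2 * 2 ^ (1 + κ) * (X ^ (θ * (1 - s)) * X ^ (1 + κ)) := by ring
      _ ≤ 2 * 4 * X ^ (1 - (s - 1) ^ 2 / (4 * s)) := by gcongr
      _ ≤ X / 4 := by linarith

/-! ### power sums -/

lemma PS_le_of_le {s : ℝ} (hs : 1 < s) {d : ℕ} {t : List ℕ} (h : ∀ x ∈ t, x ≤ d) :
    PS s t ≤ (d : ℝ) ^ (s - 1) * t.sum := by
  induction t with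
  | nil => simp [PS_nil]
  | cons x t ih =>
    have h1 := ih fun y hy => h y (List.mem_cons_of_mem _ hy)
    have h2 : x ≤ d := h x (by simp)
    rw [PS_cons, List.sum_cons, Nat.cast_add, mul_add]
    refine add_le_add ?_ h1
    rcases Nat.eq_zero_or_pos x with rfl | hx
    · rw [Nat.cast_zero, Real.zero_rpow (by linarith), mul_zero]
    · have hx0 : (0 : ℝ) < x := by exact_mod_cast hx
      have h3 : (x : ℝ) ^ s = (x : ℝ) ^ (s - 1) * x := by
        conv_rhs => rw [← Real.rpow_one (x : ℝ)]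
        rw [Real.rpow_one, ← Real.rpow_add_one hx0.ne']
        congr 1
        ring
      rw [h3]
      have h4 : (x : ℝ) ^ (s - 1) ≤ (d : ℝ) ^ (s - 1) :=
        Real.rpow_le_rpow hx0.le (by exact_mod_cast h2) (by linarith)
      gcongr

lemma PS_le_rpow {s : ℝ} (hs : 1 < s) (t : List ℕ) : PS s t ≤ ((t.sum : ℕ) : ℝ) ^ s := by
  induction t with
  | nil =>
    rw [PS_nil]; positivity
  | cons x t ih =>
    rw [PS_cons, List.sum_cons, Nat.cast_add]
    have := Real.add_rpow_le_rpow_add (p := s) (a := (x : ℝ)) (b := ((t.sum : ℕ) : ℝ))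
      (by positivity) (by positivity) hs.le
    linarith

lemma Good.le {s κ : ℝ} (hs : 1 < s) {c0 : ℕ} {r t : List ℕ} (hG : Good s κ c0 r)
    (ht : t <:+ r) : PS s t ≤ ((t.sum : ℕ) : ℝ) ^ (1 + κ) + (c0 : ℝ) ^ s := by
  by_cases h : c0 ≤ t.sum
  · have := hG t ht h
    have h2 : (0 : ℝ) ≤ (c0 : ℝ) ^ s := by positivity
    linarith
  · have h1 := PS_le_rpow hs t
    have h2 : ((t.sum : ℕ) : ℝ) ^ s ≤ (c0 : ℝ) ^ s :=
      Real.rpow_le_rpow (by positivity) (by exact_mod_cast (by omega : t.sum ≤ c0)) (by linarith)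
    have h3 : (0 : ℝ) ≤ ((t.sum : ℕ) : ℝ) ^ (1 + κ) := by positivity
    linarith

/-! ### few demands can always be served -/

lemma nz_serve_le (l : ℕ) (u : List ℕ) : nz u ≤ nz (serve l u) + l := by
  induction u generalizing l with
  | nil => simp [nz]
  | cons x t ih =>
    cases l with
    | zero => rw [serve_zero]; omega
    | succ l =>
      cases x with
      | zero =>
        have := ih (l + 1)
        simp only [serve, nz]
        omega
      | succ x =>
        have := ih l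
        simp only [serve, nz]
        cases x with
        | zero => simp only [nz]; omega
        | succ x => simp only [nz]; omega

lemma okL_of_nz {v u : List ℕ} (h : v.sum ≤ nz u) : okL v u := by
  induction v generalizing u with
  | nil => trivial
  | cons l ls ih =>
    simp only [List.sum_cons] at h
    refine ⟨by omega, ih ?_⟩
    have := nz_serve_le l u
    omega

lemma nz_replicate' {d : ℕ} (hd : 1 ≤ d) (k : ℕ) : nz (List.replicate k d) = k := by
  obtain ⟨e, rfl⟩ : ∃ e, d = e + 1 := ⟨d - 1, by omega⟩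
  have := nz_replicate k e []
  simpa [nz] using this

/-- The closing word. -/
theorem closing {s : ℝ} (hs1 : 1 < s) (hs2 : s ≤ 2) :
    ∃ κ₀ : ℝ, 0 < κ₀ ∧ ∀ κ, 0 < κ → κ ≤ κ₀ → ∀ ρ c0 d : ℕ, 1 ≤ d →
      ∃ k : ℕ, ∀ w w' : List (ℕ × ℕ), Rw w ≤ ρ → Rw w' ≤ ρ →
        Good s κ c0 (run [] w) → Good s κ c0 (run [] w') → Sw w = Sw w' →
        CW (List.replicate k (0, d) ++ (w ++ (mir w' ++ Vk d k))) := by
  have hs0 : 0 < s - 1 := by linarith
  refine ⟨(s - 1) ^ 2 / (4 * s), by positivity, fun κ hκ0 hκ ρ c0 d hd => ?_⟩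
  obtain ⟨θ, c, hc⟩ := exists_BPar hs1 hs2 hκ0 hκ
  obtain ⟨c2, hc21, hc2⟩ := exists_rpow_ge hκ0 ((c0 : ℝ) ^ s + (d : ℝ) ^ (s - 1))
  set c' := max c c2 with hc'
  have hP := hc c' (le_max_left _ _)
  obtain ⟨k, hk⟩ := exists_nat_ge (c' + ρ)
  refine ⟨k, fun w w' hR hR' hG hG' hS => ?_⟩
  have hd0 : (0 : ℝ) ≤ (d : ℝ) ^ (s - 1) := by positivity
  have hc00 : (0 : ℝ) ≤ (c0 : ℝ) ^ s := by positivity
  have hbig : ∀ X : ℝ, c' ≤ X →
      (c0 : ℝ) ^ s + (d : ℝ) ^ (s - 1) * X ≤ X ^ (1 + κ) ∧ (c0 : ℝ) ^ s ≤ X ^ (1 + κ) := by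
    intro X hX
    have h1 : c2 ≤ X := (le_max_right _ _).trans hX
    have hX1 : 1 ≤ X := hc21.trans h1
    have h2 := hc2 X h1
    have h3 : X ^ (1 + κ) = X * X ^ κ := by
      rw [Real.rpow_add (by linarith), Real.rpow_one]
    rw [h3]
    constructor <;> nlinarith
  have hk1 : ρ ≤ k := by
    have h1 : (ρ : ℝ) ≤ k := by
      have := hP.c1
      linarith
    exact_mod_cast h1
  have hkd : k ≤ k * d := Nat.le_mul_of_pos_right _ hd
  have hkdR : c' + ρ ≤ (k * d : ℕ) := hk.trans (by exact_mod_cast hkd)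
  -- the first part
  obtain ⟨h1, h2⟩ := run_start d k []
  rw [List.append_nil] at h1
  have hok1 : okL (need [] w) (List.replicate k d) := by
    apply okL_of_nz
    rw [nz_replicate' hd]
    exact hR.trans hk1
  have hok1' : okrun (List.replicate k d) w := by rw [okrun_eq]; exact hok1
  set ζ := srvL (need [] w) (List.replicate k d) with hζ
  have hζsum : ζ.sum + Rw w = k * d := by
    have := okL_sum hok1
    simpa [Rw] using this
  set u := run [] w ++ ζ with hu
  have hrun1 : run (List.replicate k d) w = u := by rw [run_eq]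
  have husum : u.sum = Tw w + ζ.sum := by rw [hu, List.sum_append]; rfl
  set V := run [] w' with hV
  have hVsum : V.sum = Tw w' := rfl
  have hneed : need [] (mir w') = V := (run_eq_need_mir w').symm
  have hSw := Sw_eq w
  have hSw' := Sw_eq w'
  -- heights
  have hdiff : u.sum + Rw w' = V.sum + k * d := by
    rw [husum, hVsum]
    omega
  have hζle : ∀ x ∈ ζ, x ≤ d := by
    have hf := srvL_forall₂ (need [] w) (List.replicate k d)
    rw [← hζ] at hf
    intro x hx
    obtain ⟨i, hi, rfl⟩ := List.mem_iff_getElem.1 hx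
    have h4 := List.Forall₂.get hf hi (by rw [← hf.length_eq]; exact hi)
    simpa using h4
  have hH : BHyp s κ c' u V := by
    refine ⟨?_, ?_, ?_⟩
    · have h3 : ((u.sum : ℕ) : ℝ) + (Rw w' : ℝ) = (V.sum : ℝ) + (k * d : ℕ) := by
        exact_mod_cast hdiff
      have h4 : (Rw w' : ℝ) ≤ ρ := by exact_mod_cast hR'
      linarith
    · intro t ht htc
      obtain ⟨h3, -⟩ := hbig _ htc
      obtain ⟨p, hp⟩ := ht
      rw [hu, List.append_eq_append_iff] at hp
      have h5 : ∀ t1 t2 : List ℕ, t = t1 ++ t2 → t1 <:+ run [] w → (∀ x ∈ t2, x ≤ d) →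
          PS s t ≤ 2 * ((t.sum : ℕ) : ℝ) ^ (1 + κ) := by
        intro t1 t2 h6 h7 h8
        have h9 := Good.le hs1 hG h7
        have h10 := PS_le_of_le hs1 h8
        have h11 : ((t.sum : ℕ) : ℝ) = t1.sum + t2.sum := by
          rw [h6, List.sum_append, Nat.cast_add]
        have h12 : ((t1.sum : ℕ) : ℝ) ^ (1 + κ) ≤ ((t.sum : ℕ) : ℝ) ^ (1 + κ) := by
          refine Real.rpow_le_rpow (by positivity) ?_ (by linarith)
          rw [h11]
          have : (0 : ℝ) ≤ ((t2.sum : ℕ) : ℝ) := by positivity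
          linarith
        have h13 : (d : ℝ) ^ (s - 1) * ((t2.sum : ℕ) : ℝ) ≤ (d : ℝ) ^ (s - 1) * (t.sum : ℕ) := by
          refine mul_le_mul_of_nonneg_left ?_ hd0
          rw [h11]
          have : (0 : ℝ) ≤ ((t1.sum : ℕ) : ℝ) := by positivity
          linarith
        have h14 : PS s t = PS s t1 + PS s t2 := by rw [h6, PS_append]
        linarith
      rcases hp with ⟨as', h6, h7⟩ | ⟨cs', h6, h7⟩
      · exact h5 as' ζ h7 ⟨p, h6.symm⟩ hζle
      · refine h5 [] t rfl ⟨run [] w, by simp⟩ ?_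
        intro x hx
        exact hζle x (by rw [h7]; simp [hx])
    · intro v t hvt
      have h3 : ((u.sum : ℕ) : ℝ) + (Rw w' : ℝ) = (V.sum : ℝ) + (k * d : ℕ) := by
        exact_mod_cast hdiff
      have h4 : (Rw w' : ℝ) ≤ ρ := by exact_mod_cast hR'
      have h5 : ((V.sum : ℕ) : ℝ) = v.sum + t.sum := by
        rw [hvt, List.sum_append, Nat.cast_add]
      have h6 : c' + ((t.sum : ℕ) : ℝ) ≤ (u.sum : ℝ) - v.sum := by linarith
      have h7 : c' ≤ (u.sum : ℝ) - v.sum := by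
        have : (0 : ℝ) ≤ ((t.sum : ℕ) : ℝ) := by positivity
        linarith
      obtain ⟨-, h8⟩ := hbig _ h7
      have h9 : t <:+ run [] w' := ⟨v, by rw [← hV, hvt]⟩
      have h10 := Good.le hs1 hG' h9
      have h11 : ((t.sum : ℕ) : ℝ) ^ (1 + κ) ≤ ((u.sum : ℝ) - v.sum) ^ (1 + κ) := by
        refine Real.rpow_le_rpow (by positivity) ?_ (by linarith)
        have := hP.c1
        linarith
      linarith
  have hok2 : okL V u := okL_of_BHyp hP hH
  have hok2' : okrun u (mir w') := by rw [okrun_eq, hneed]; exact hok2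
  have hsum3 : (run u (mir w')).sum = k * d := by
    rw [run_eq, List.sum_append, hneed]
    have h3 := okL_sum hok2
    have h4 : (run [] (mir w')).sum = Rw w' := by
      have := Tw_eq (mir w')
      rw [mir_mir] at this
      exact this
    rw [h4]
    omega
  obtain ⟨h6, h7⟩ := run_Vk hsum3
  unfold CW
  rw [run_append, run_append, run_append, okrun_append, okrun_append, okrun_append, h1, hrun1]
  exact ⟨⟨h2, hok1', hok2', h7⟩, h6⟩

end Pool.Agent.W_63dac5_h37A
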