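import Pool.Agent.W_63dac5_h39b.Base

/-!
# The criterion for laws with a finite third moment (proofs row 568, corollary (i))
-/

set_option autoImplicit false

namespace Pool.Agent.W_63dac5_h37A

open ENNReal Finset
open Pool.Agent.W_MP_63dac5_pr Pool.Agent.W_63dac5_h37 Pool.Agent.W_63dac5_h39b

/-- second moment of the excess of `D` over `h` (law `p` of `D`) -/
noncomputable def m2D (p : PMF ℕ) (h : ℕ) : ℝ≥0∞ := ∑' d : ℕ, p d * ((d - h : ℕ) : ℝ≥0∞) ^ 2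

/-- `tsum_nu_le` (W_63dac5_h37/ExTools): the left coordinate is at most `a.1 + a.2` -/
lemma m2_le (p : PMF ℕ) (h : ℕ) : m2 p h ≤ m2D p h := by
  unfold m2 m2D
  refine tsum_nu_le p (fun a => ((a.1 - h : ℕ) : ℝ≥0∞) ^ 2) (fun d => ((d - h : ℕ) : ℝ≥0∞) ^ 2)
    fun a => ?_
  have h1 : ((a.1 - h : ℕ) : ℝ≥0∞) ≤ ((a.1 + a.2 - h : ℕ) : ℝ≥0∞) := by
    exact_mod_cast (show a.1 - h ≤ a.1 + a.2 - h by omega)
  exact pow_le_pow_left' h1 2

/-- `tsum_nu_le` -/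
lemma Ks_le (p : PMF ℕ) {s : ℝ} (hs : 0 ≤ s) : Ks p s ≤ ∑' d : ℕ, p d * (d : ℝ≥0∞) ^ (s + 1) := by
  unfold Ks
  refine tsum_nu_le p (fun a => (a.1 : ℝ≥0∞) ^ (s + 1)) (fun d => (d : ℝ≥0∞) ^ (s + 1))
    fun a => ?_
  refine ENNReal.rpow_le_rpow ?_ (by linarith)
  exact_mod_cast Nat.le_add_right a.1 a.2

private lemma CritA_geom (J : ℕ) : (∑ j ∈ range J, 2 ^ j) + 1 = 2 ^ J := by
  induction J with
  | zero => simp
  | succ J ih => rw [Finset.sum_range_succ, pow_succ]; omega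

private lemma CritA_nat (d J : ℕ) (hJ : ∀ j, j < J → 2 ^ j < d) :
    ∑ j ∈ range J, 2 ^ j ≤ 2 * d := by
  cases J with
  | zero => simp
  | succ J =>
    have h1 := hJ J (Nat.lt_succ_self J)
    have h2 := CritA_geom (J + 1)
    rw [pow_succ] at h2
    omega

private lemma CritA_pt (d : ℕ) :
    ∑' j : ℕ, (2 : ℝ≥0∞) ^ j * ((d - 2 ^ j : ℕ) : ℝ≥0∞) ^ 2 ≤ 2 * (d : ℝ≥0∞) ^ 3 := by
  classical
  have hex : ∃ J : ℕ, d ≤ 2 ^ J := ⟨d, Nat.lt_two_pow_self.le⟩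
  have h1 : d ≤ 2 ^ Nat.find hex := Nat.find_spec hex
  have h2 : ∀ j, j < Nat.find hex → 2 ^ j < d := fun j hj => not_le.1 (Nat.find_min hex hj)
  generalize Nat.find hex = J at h1 h2
  rw [tsum_eq_sum (s := range J)]
  · calc ∑ j ∈ range J, (2 : ℝ≥0∞) ^ j * ((d - 2 ^ j : ℕ) : ℝ≥0∞) ^ 2
        ≤ ∑ j ∈ range J, ((2 ^ j : ℕ) : ℝ≥0∞) * (d : ℝ≥0∞) ^ 2 := by
          refine Finset.sum_le_sum fun j _ => ?_
          have h3 : ((d - 2 ^ j : ℕ) : ℝ≥0∞) ≤ (d : ℝ≥0∞) := by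
            exact_mod_cast Nat.sub_le _ _
          have h4 : (2 : ℝ≥0∞) ^ j = ((2 ^ j : ℕ) : ℝ≥0∞) := by push_cast; rfl
          rw [h4]
          exact mul_le_mul' le_rfl (pow_le_pow_left' h3 2)
      _ = ((∑ j ∈ range J, 2 ^ j : ℕ) : ℝ≥0∞) * (d : ℝ≥0∞) ^ 2 := by
          rw [Nat.cast_sum, Finset.sum_mul]
      _ ≤ ((2 * d : ℕ) : ℝ≥0∞) * (d : ℝ≥0∞) ^ 2 := by
          refine mul_le_mul' ?_ le_rfl
          exact_mod_cast CritA_nat d J h2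
      _ = 2 * (d : ℝ≥0∞) ^ 3 := by
          push_cast
          ring
  · intro j hj
    have h3 : J ≤ j := by simpa using hj
    have h4 : d - 2 ^ j = 0 := by
      have := Nat.pow_le_pow_right (show 0 < 2 by norm_num) h3
      omega
    rw [h4]
    simp

/-- Dyadic sum: `∑_j 2^j (d - 2^j)^2 ≤ d^2 ∑_{j : 2^j < d} 2^j ≤ 2 d^3` for each `d`; exchange the sums
(`ENNReal.tsum_comm`). -/
lemma dyadic (p : PMF ℕ) :
    ∑' j : ℕ, (2 : ℝ≥0∞) ^ j * m2D p (2 ^ j) ≤ 2 * ∑' d : ℕ, p d * (d : ℝ≥0∞) ^ 3 := by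
  calc ∑' j : ℕ, (2 : ℝ≥0∞) ^ j * m2D p (2 ^ j)
      = ∑' j : ℕ, ∑' d : ℕ, p d * ((2 : ℝ≥0∞) ^ j * ((d - 2 ^ j : ℕ) : ℝ≥0∞) ^ 2) := by
        refine tsum_congr fun j => ?_
        unfold m2D
        rw [← ENNReal.tsum_mul_left]
        exact tsum_congr fun d => by ring
    _ = ∑' d : ℕ, p d * ∑' j : ℕ, (2 : ℝ≥0∞) ^ j * ((d - 2 ^ j : ℕ) : ℝ≥0∞) ^ 2 := by
        rw [ENNReal.tsum_comm]
        exact tsum_congr fun d => ENNReal.tsum_mul_left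
    _ ≤ ∑' d : ℕ, p d * (2 * (d : ℝ≥0∞) ^ 3) := by
        refine ENNReal.tsum_le_tsum fun d => ?_
        exact mul_le_mul' le_rfl (CritA_pt d)
    _ = 2 * ∑' d : ℕ, p d * (d : ℝ≥0∞) ^ 3 := by
        rw [← ENNReal.tsum_mul_left]
        exact tsum_congr fun d => by ring

/-- Otherwise, with `x j = 2^j * m2D p (2^j)` (finite sum by `dyadic`), `x j ≥ 1 / (c' (j + 1))` for all `j`, because
`1 + log (2^j (1 + K)) ≤ c'' (j + 1)`; but `∑ 1 / (j + 1)` diverges (`Real.not_summable_one_div_natCast` or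
`not_summable_one_div_add`). -/
theorem crit0 {p : PMF ℕ} (hp : ∑' d : ℕ, p d * (d : ℝ≥0∞) ^ 3 ≠ ∞) {K c : ℝ} (hK : 0 ≤ K)
    (hc : 1 ≤ c) :
    ∃ (M : ℝ) (h : ℕ), 0 ≤ M ∧ 1 ≤ h ∧ m2D p h ≤ ENNReal.ofReal M ∧
      c * (h * (1 + Real.log (h * (1 + K))) * M) ≤ 1 := by
  by_contra hcon
  push Not at hcon
  have hfin : ∑' j : ℕ, (2 : ℝ≥0∞) ^ j * m2D p (2 ^ j) ≠ ∞ :=
    ne_top_of_le_ne_top (ENNReal.mul_ne_top (by norm_num) hp) (dyadic p)
  have hterm : ∀ j : ℕ, (2 : ℝ≥0∞) ^ j * m2D p (2 ^ j) ≠ ∞ := fun j =>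
    ENNReal.ne_top_of_tsum_ne_top hfin j
  have hm : ∀ j : ℕ, m2D p (2 ^ j) ≠ ∞ := by
    intro j hj
    refine hterm j ?_
    rw [hj]
    exact ENNReal.mul_top (by positivity)
  have hsum : Summable (fun j : ℕ => ((2 : ℝ≥0∞) ^ j * m2D p (2 ^ j)).toReal) :=
    ENNReal.summable_toReal hfin
  have hl : 0 ≤ Real.log (1 + K) := Real.log_nonneg (by linarith)
  have hlow : ∀ j : ℕ, (1 / (c * (1 + Real.log (1 + K)))) * (1 / ((j : ℝ) + 1)) ≤
      ((2 : ℝ≥0∞) ^ j * m2D p (2 ^ j)).toReal := by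
    intro j
    have h1 := hcon (m2D p (2 ^ j)).toReal (2 ^ j) ENNReal.toReal_nonneg Nat.one_le_two_pow
      (by rw [ENNReal.ofReal_toReal (hm j)])
    rw [ENNReal.toReal_mul, ENNReal.toReal_pow, ENNReal.toReal_ofNat]
    set M := (m2D p (2 ^ j)).toReal with hM
    have hM0 : 0 ≤ M := ENNReal.toReal_nonneg
    have h2 : Real.log (((2 ^ j : ℕ) : ℝ) * (1 + K)) = j * Real.log 2 + Real.log (1 + K) := by
      push_cast
      rw [Real.log_mul (by positivity) (by positivity), Real.log_pow]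
    rw [h2] at h1
    push_cast at h1
    have h3 : Real.log 2 ≤ 1 := by
      have := Real.log_two_lt_d9
      linarith
    have h4 : 1 + (j * Real.log 2 + Real.log (1 + K)) ≤ (1 + Real.log (1 + K)) * ((j : ℝ) + 1) := by
      have hj : (0 : ℝ) ≤ j := Nat.cast_nonneg j
      nlinarith [mul_nonneg hj hl, mul_nonneg hj (sub_nonneg.2 h3)]
    have h5 : 0 < c * (1 + Real.log (1 + K)) * ((j : ℝ) + 1) := by positivity
    rw [one_div_mul_one_div, div_le_iff₀ h5]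
    have h6 : c * (2 ^ j * (1 + (j * Real.log 2 + Real.log (1 + K))) * M) ≤
        2 ^ j * M * (c * (1 + Real.log (1 + K)) * ((j : ℝ) + 1)) := by
      have h7 : 0 ≤ c * (2 ^ j * M) := by positivity
      calc c * (2 ^ j * (1 + (j * Real.log 2 + Real.log (1 + K))) * M)
          = c * (2 ^ j * M) * (1 + (j * Real.log 2 + Real.log (1 + K))) := by ring
        _ ≤ c * (2 ^ j * M) * ((1 + Real.log (1 + K)) * ((j : ℝ) + 1)) :=
            mul_le_mul_of_nonneg_left h4 h7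
        _ = _ := by ring
    linarith
  have h1 : Summable (fun j : ℕ => (1 / (c * (1 + Real.log (1 + K)))) * (1 / ((j : ℝ) + 1))) :=
    Summable.of_nonneg_of_le (fun j => by positivity) hlow hsum
  have h2 : Summable (fun j : ℕ => 1 / ((j : ℝ) + 1)) := by
    refine (summable_mul_left_iff ?_).1 h1
    positivity
  have h3 : Summable (fun j : ℕ => 1 / ((j + 1 : ℕ) : ℝ)) := by
    refine h2.congr fun j => ?_
    push_cast
    rfl
  exact Real.not_summable_one_div_natCast ((summable_nat_add_iff 1).1 h3)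

end Pool.Agent.W_63dac5_h37A
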