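import Pool.Agent.W_63dac5_h37A.CritA

/-!
# The criterion for mixtures (proofs row 568, corollary (ii))
-/

set_option autoImplicit false

namespace Pool.Agent.W_63dac5_h37A

open ENNReal Finset
open Pool.Agent.W_MP_63dac5_pr Pool.Agent.W_63dac5_h37 Pool.Agent.W_63dac5_h39b

private lemma CritB_pow_mono (x : ℕ) {s t : ℝ} (h0 : 0 < s) (h : s ≤ t) :
    (x : ℝ≥0∞) ^ s ≤ (x : ℝ≥0∞) ^ t := by
  rcases Nat.eq_zero_or_pos x with hx | hx
  · subst hx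
    rw [Nat.cast_zero, ENNReal.zero_rpow_of_pos h0]
    exact bot_le
  · exact ENNReal.rpow_le_rpow_of_exponent_le (by exact_mod_cast hx) h

private lemma CritB_rpow3 (x : ℝ≥0∞) : x ^ (3 : ℝ) = x ^ 3 := by
  have h := ENNReal.rpow_natCast x 3
  rwa [Nat.cast_ofNat] at h

private lemma CritB_rpow2 (x : ℝ≥0∞) : x ^ (2 : ℝ) = x ^ 2 := by
  have h := ENNReal.rpow_natCast x 2
  rwa [Nat.cast_ofNat] at h

/-- `crit0` with `K` the third moment, `Ks_le` with `s = 2`, `m2_le`. -/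
theorem critA {p : PMF ℕ} (hp : ∑' d : ℕ, p d * (d : ℝ≥0∞) ^ 3 ≠ ∞) {c : ℝ} (hc : 1 ≤ c) :
    ∃ (K M : ℝ) (h : ℕ), 0 ≤ K ∧ 0 ≤ M ∧ 1 ≤ h ∧ Ks p 2 ≤ ENNReal.ofReal K ∧
      m2 p h ≤ ENNReal.ofReal M ∧ c * (h * (1 + Real.log (h * (1 + K))) * M) ≤ 1 := by
  obtain ⟨M, h, hM, hh, hm, hle⟩ := crit0 hp (K := (∑' d : ℕ, p d * (d : ℝ≥0∞) ^ 3).toReal)
    ENNReal.toReal_nonneg hc
  refine ⟨_, M, h, ENNReal.toReal_nonneg, hM, hh, ?_, (m2_le p h).trans hm, hle⟩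
  rw [ENNReal.ofReal_toReal hp]
  refine (Ks_le p (by norm_num)).trans (le_of_eq (tsum_congr fun d => ?_))
  have e : (2 : ℝ) + 1 = 3 := by norm_num
  rw [e, CritB_rpow3]

/-- `K = E_p D^(s+1) + E_q D^(s+1)` (finite, as `D^(s+1) ≤ D^3`) bounds `Ks μ s` for all `e`.  `crit0` with this `K`
and `2 c` gives `h` and `M₁ ≥ m2D p h`; `m2D μ h ≤ m2D p h + e m2D q h` and `m2D q h ≤ E_q D^(s+1) < ∞`, so
`M = M₁ + e₀ M₂` works for a small `e₀`. -/
theorem critB {p q : PMF ℕ} (hp : ∑' d : ℕ, p d * (d : ℝ≥0∞) ^ 3 ≠ ∞) {s : ℝ} (hs1 : 1 < s)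
    (hs2 : s ≤ 2) (hq : ∑' d : ℕ, q d * (d : ℝ≥0∞) ^ (s + 1) ≠ ∞) {c : ℝ} (hc : 1 ≤ c) :
    ∃ e₀ : ℝ, 0 < e₀ ∧ ∀ (e : ℝ) (μ : PMF ℕ), 0 ≤ e → e ≤ 1 → e ≤ e₀ →
      (∀ d, μ d = ENNReal.ofReal (1 - e) * p d + ENNReal.ofReal e * q d) →
      ∃ (K M : ℝ) (h : ℕ), 0 ≤ K ∧ 0 ≤ M ∧ 1 ≤ h ∧ Ks μ s ≤ ENNReal.ofReal K ∧
        m2 μ h ≤ ENNReal.ofReal M ∧ c * (h * (1 + Real.log (h * (1 + K))) * M) ≤ 1 := by
  set T3 : ℝ≥0∞ := ∑' d : ℕ, p d * (d : ℝ≥0∞) ^ 3 with hT3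
  set Tq : ℝ≥0∞ := ∑' d : ℕ, q d * (d : ℝ≥0∞) ^ (s + 1) with hTq
  have hsum : T3 + Tq ≠ ∞ := ENNReal.add_ne_top.2 ⟨hp, hq⟩
  set K : ℝ := (T3 + Tq).toReal with hKdef
  have hK0 : 0 ≤ K := ENNReal.toReal_nonneg
  obtain ⟨M1, h, hM1, hh, hm, hle⟩ := crit0 (p := p) hp (K := K) (c := 2 * c) hK0 (by linarith)
  set M2 : ℝ := Tq.toReal with hM2
  have hM20 : 0 ≤ M2 := ENNReal.toReal_nonneg
  have hhr : (1 : ℝ) ≤ (h : ℝ) := by exact_mod_cast hh
  set L : ℝ := 1 + Real.log (h * (1 + K)) with hL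
  have hL1 : 1 ≤ L := by
    have h1 : (1 : ℝ) ≤ h * (1 + K) := by nlinarith
    have := Real.log_nonneg h1
    rw [hL]
    linarith
  have hden : 0 < 2 * c * h * L * (M2 + 1) := by
    have : 0 < 2 * c * h := by nlinarith
    have h2 : 0 < 2 * c * h * L := by nlinarith
    nlinarith
  refine ⟨1 / (2 * c * h * L * (M2 + 1)), by positivity, ?_⟩
  intro e μ he0 he1 hee hμ
  have hfinq : ∀ f : ℕ → ℝ≥0∞, ∑' d : ℕ, μ d * f d =
      ENNReal.ofReal (1 - e) * ∑' d : ℕ, p d * f d + ENNReal.ofReal e * ∑' d : ℕ, q d * f d := by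
    intro f
    rw [← ENNReal.tsum_mul_left, ← ENNReal.tsum_mul_left, ← ENNReal.tsum_add]
    refine tsum_congr fun d => ?_
    rw [hμ d]
    ring
  have h1e : ENNReal.ofReal (1 - e) ≤ 1 := by
    rw [ENNReal.ofReal_le_one]
    linarith
  have he1' : ENNReal.ofReal e ≤ 1 := by
    rw [ENNReal.ofReal_le_one]
    exact he1
  refine ⟨K, M1 + e * M2, h, hK0, by positivity, hh, ?_, ?_, ?_⟩
  · rw [hKdef, ENNReal.ofReal_toReal hsum]
    refine (Ks_le μ (by linarith)).trans ?_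
    rw [hfinq (fun d => (d : ℝ≥0∞) ^ (s + 1))]
    refine add_le_add ?_ ?_
    · refine (mul_le_mul' h1e le_rfl).trans ?_
      rw [one_mul]
      refine ENNReal.tsum_le_tsum fun d => ?_
      gcongr
      rw [← CritB_rpow3]
      exact CritB_pow_mono d (by linarith) (by linarith)
    · refine (mul_le_mul' he1' le_rfl).trans ?_
      rw [one_mul]
  · refine (m2_le μ h).trans ?_
    have e1 : m2D μ h = ENNReal.ofReal (1 - e) * m2D p h + ENNReal.ofReal e * m2D q h :=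
      hfinq (fun d => ((d - h : ℕ) : ℝ≥0∞) ^ 2)
    rw [e1, ENNReal.ofReal_add hM1 (by positivity), ENNReal.ofReal_mul he0]
    refine add_le_add ?_ ?_
    · refine (mul_le_mul' h1e le_rfl).trans ?_
      rw [one_mul]
      exact hm
    · refine mul_le_mul' le_rfl ?_
      rw [hM2, ENNReal.ofReal_toReal hq]
      refine ENNReal.tsum_le_tsum fun d => ?_
      gcongr
      rw [← CritB_rpow2]
      refine le_trans ?_ (CritB_pow_mono d (s := 2) (t := s + 1) (by norm_num) (by linarith))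
      refine ENNReal.rpow_le_rpow ?_ (by norm_num)
      exact_mod_cast Nat.sub_le _ _
  · have a1 : c * (h * L * M1) ≤ 1 / 2 := by
      have : 2 * c * (h * L * M1) ≤ 1 := hle
      linarith
    have a2 : c * (h * L * (e * M2)) ≤ 1 / 2 := by
      have b1 : e * (2 * c * h * L * (M2 + 1)) ≤ 1 := by
        have := mul_le_mul_of_nonneg_right hee hden.le
        rwa [one_div, inv_mul_cancel₀ hden.ne'] at this
      have b2 : e * (2 * c * h * L * M2) ≤ e * (2 * c * h * L * (M2 + 1)) := by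
        refine mul_le_mul_of_nonneg_left ?_ he0
        refine mul_le_mul_of_nonneg_left (by linarith) ?_
        have : 0 < 2 * c * h := by nlinarith
        have h2 : 0 < 2 * c * h * L := by nlinarith
        exact h2.le
      nlinarith
    have a3 : c * (h * L * (M1 + e * M2)) = c * (h * L * M1) + c * (h * L * (e * M2)) := by ring
    rw [a3]
    linarith

end Pool.Agent.W_63dac5_h37A
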