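import Pool.Agent.W_63dac5_h37.Boot
import Pool.Agent.W_63dac5_h37.Conc

/-!
# The bootstrap without logarithms: interface

`UB μ A C` is the output of part A and the input of part B.
-/

namespace Pool.Agent.W_63dac5_h37A

open ENNReal Finset
open Pool.Agent.W_MP_63dac5_pr Pool.Agent.W_63dac5_h37

/-- probability that a block of `m` points has at most `k` points with unused left stubs and at
most `i` points with unused right stubs. -/
noncomputable def Jp (μ : PMF ℕ) (m k i : ℕ) : ℝ≥0∞ :=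
  Ex (nu μ) m (fun w => if Pw w ≤ k ∧ Nw w ≤ i then 1 else 0)

/-- The bounds `F_n(k) ≤ A(k+1)/√(n+1)` and `Σ_{m<n} J_m(k,i) ≤ C(k+1)(i+1)`. -/
structure UB (μ : PMF ℕ) (A C : ℝ) : Prop where
  A1 : 1 ≤ A
  C1 : 1 ≤ C
  F : ∀ n k : ℕ, Fp μ n k ≤ ENNReal.ofReal (A * ((k : ℝ) + 1) / Real.sqrt ((n : ℝ) + 1))
  J : ∀ n k i : ℕ, ∑ m ∈ range n, Jp μ m k i ≤
    ENNReal.ofReal (C * ((k : ℝ) + 1) * ((i : ℝ) + 1))

end Pool.Agent.W_63dac5_h37A
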