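import Pool.Agent.W_63dac5_h37A.GoodDef
import Pool.Agent.W_63dac5_h39b.Base

/-!
# The large entries near the bottom of the stack (proofs row 568, B4), lists
-/

set_option autoImplicit false

namespace Pool.Agent.W_63dac5_h37A

open ENNReal Finset
open Pool.Agent.W_MP_63dac5_pr Pool.Agent.W_63dac5_h37

open Classical in
/-- power sum of the longest bottom part with sum at most `H` -/
noncomputable def Gam (s : ℝ) (H : ℕ) : List ℕ → ℝ≥0∞
  | [] => 0
  | x :: t => (if (x :: t).sum ≤ H then (x : ℝ≥0∞) ^ s else 0) + Gam s H t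

/-- a bottom part with sum at most `H` -/
lemma PS_le_Gam {s : ℝ} (hs : 0 < s) {H : ℕ} {t r : List ℕ} (ht : t <:+ r) (h : t.sum ≤ H) :
    ENNReal.ofReal (PS s t) ≤ Gam s H r := by
  induction r generalizing t with
  | nil =>
    rw [List.suffix_nil] at ht
    subst ht
    simp [PS_nil]
  | cons x r ih =>
    rcases List.suffix_cons_iff.1 ht with h1 | h1
    · subst h1
      have h2 : r.sum ≤ H := by
        rw [List.sum_cons] at h
        omega
      have h3 := ih (List.suffix_refl r) h2
      have h4 : ENNReal.ofReal ((x : ℝ) ^ s) = (x : ℝ≥0∞) ^ s := by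
        rw [← ENNReal.ofReal_rpow_of_nonneg (Nat.cast_nonneg x) hs.le, ENNReal.ofReal_natCast]
      rw [PS_cons, ENNReal.ofReal_add (by positivity) (PS_nonneg s r), h4]
      simp only [Gam]
      rw [if_pos h]
      exact add_le_add le_rfl h3
    · exact le_trans (ih h1 h) (by simp only [Gam]; exact le_add_self)

open Classical in
/-- positions counted from the bottom; list induction -/
lemma Gam_eq {s : ℝ} {H : ℕ} (r : List ℕ) :
    Gam s H r = ∑ j ∈ range r.length, (if (r.drop (r.length - 1 - j)).sum ≤ H then
      (((r.drop (r.length - 1 - j)).headD 0 : ℕ) : ℝ≥0∞) ^ s else 0) := by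
  induction r with
  | nil => simp [Gam]
  | cons x t ih =>
    rw [List.length_cons, Finset.sum_range_succ]
    simp only [Gam]
    rw [add_comm]
    congr 1
    · rw [ih]
      refine Finset.sum_congr rfl fun j hj => ?_
      rw [Finset.mem_range] at hj
      rw [show t.length + 1 - 1 - j = (t.length - 1 - j) + 1 by omega, List.drop_succ_cons]
    · rw [show t.length + 1 - 1 - t.length = 0 by omega, List.drop_zero]
      rfl

private lemma GamA_serve_length (l : ℕ) (u : List ℕ) : (serve l u).length = u.length := by
  induction u generalizing l with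
  | nil => cases l <;> simp [serve]
  | cons x t ih =>
    cases l with
    | zero => rw [serve_zero]
    | succ l =>
      cases x with
      | zero => simp only [serve, List.length_cons, ih]
      | succ x => simp only [serve, List.length_cons, ih]

lemma run_length (u : List ℕ) (w : List (ℕ × ℕ)) : (run u w).length = u.length + w.length := by
  induction w generalizing u with
  | nil => simp [run]
  | cons a w ih =>
    simp only [run, List.length_cons]
    rw [ih]
    simp only [stp, List.length_cons, GamA_serve_length]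
    omega

/-- The bottom part of the stack which ends with the entry of the letter `a`: it is
`srvL (need [] v) (stp (run [] u) a)`, with first entry `a.2 - Pw v` (`run_eq`, `srvL_append_stack`,
`srvL_singleton`), and its sum `B` satisfies `B + Rw v + a.1 = Tw u + a.2 + e` with
`e = (a.1 - Nw u) + (need (stp (run [] u) a) v).sum ≤ Rw (u ++ a :: v)` (`conserve`, `serve_sum`,
`need_append`). -/
lemma bottom (u : List (ℕ × ℕ)) (a : ℕ × ℕ) (v : List (ℕ × ℕ)) :
    ∃ (t : List ℕ) (e : ℕ), (run [] (u ++ a :: v)).drop v.length = (a.2 - Pw v) :: t ∧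
      ((a.2 - Pw v) :: t).sum + Rw v + a.1 = Tw u + a.2 + e ∧ e ≤ Rw (u ++ a :: v) := by
  have hrun : run [] (u ++ a :: v) =
      run [] v ++ srvL (need [] v) (stp (run [] u) a) := by
    rw [run_append]
    show run (stp (run [] u) a) v = _
    exact run_eq _ _
  have hsrv : srvL (need [] v) (stp (run [] u) a) =
      (a.2 - Pw v) :: srvL (rst (need [] v) [a.2]) (serve a.1 (run [] u)) := by
    have h1 : stp (run [] u) a = [a.2] ++ serve a.1 (run [] u) := rfl
    rw [h1, srvL_append_stack, srvL_singleton]
    rfl
  have hlen : (run [] v).length = v.length := by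
    rw [run_length]
    simp
  refine ⟨srvL (rst (need [] v) [a.2]) (serve a.1 (run [] u)),
    (a.1 - Nw u) + (need (stp (run [] u) a) v).sum, ?_, ?_, ?_⟩
  · rw [hrun, List.drop_append_of_le_length (by rw [hlen]), ← hlen, List.drop_length,
      List.nil_append]
    exact hsrv
  · rw [← hsrv]
    have h1 := conserve (stp (run [] u) a) v
    have h2 := Tw_conserve v
    have h3 : (run (stp (run [] u) a) v).sum =
        Tw v + (srvL (need [] v) (stp (run [] u) a)).sum := by
      rw [run_eq, List.sum_append]
      rfl
    have h4 := serve_sum a.1 (run [] u)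
    have h5 : (stp (run [] u) a).sum = a.2 + (serve a.1 (run [] u)).sum := by simp [stp]
    have h6 : (run [] u).sum = Tw u := rfl
    have h7 : nz (run [] u) = Nw u := rfl
    rw [h6, h7] at h4
    omega
  · have h1 : Rw (u ++ a :: v) = Rw u + ((a.1 - Nw u) + (need (stp (run [] u) a) v).sum) := by
      unfold Rw
      rw [need_append, List.sum_append]
      simp only [need, List.sum_cons]
      rfl
    omega

open Classical in
/-- the bound for one letter -/
noncomputable def psi (s : ℝ) (I ρ H : ℕ) (u : List (ℕ × ℕ)) (a : ℕ × ℕ) (v : List (ℕ × ℕ)) :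
    ℝ≥0∞ :=
  if Pw u ≤ I ∧ a.1 + Rw v ≤ Tw u + a.2 + ρ ∧ Tw u + a.2 ≤ a.1 + Rw v + H then
    ((a.2 - Pw v : ℕ) : ℝ≥0∞) ^ s else 0

/-- `Gam_eq`, `bottom`, `Pw_left_le` -/
theorem Gam_le_psi {s : ℝ} (hs : 0 < s) {I ρ H : ℕ} {w : List (ℕ × ℕ)} (hP : Pw w ≤ I)
    (hR : Rw w ≤ ρ) : Gam s H (run [] w) ≤
      ∑ j ∈ range w.length, psi s I ρ H (w.take j) (w.getD j (0, 0)) (w.drop (j + 1)) := by
  have hlen : (run [] w).length = w.length := by
    rw [run_length]
    simp
  rw [Gam_eq, hlen]
  refine Finset.sum_le_sum fun j hj => ?_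
  rw [Finset.mem_range] at hj
  have hw : w = w.take j ++ (w.getD j (0, 0)) :: w.drop (j + 1) := by
    rw [List.getD_eq_getElem w (0, 0) hj, List.getElem_cons_drop, List.take_append_drop]
  set u := w.take j with hu
  set a := w.getD j (0, 0) with ha
  set v := w.drop (j + 1) with hv
  have hvl : v.length = w.length - 1 - j := by
    rw [hv, List.length_drop]
    omega
  obtain ⟨t, e, h1, h2, h3⟩ := bottom u a v
  rw [← hw] at h1 h3
  rw [← hvl, h1]
  by_cases hB : ((a.2 - Pw v) :: t).sum ≤ H
  · rw [if_pos hB]
    have h4 : Pw u ≤ I := by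
      refine le_trans ?_ hP
      have := Pw_left_le u (a :: v)
      rwa [← hw] at this
    unfold psi
    rw [if_pos ⟨h4, by omega, by omega⟩]
    exact le_rfl
  · rw [if_neg hB]
    exact bot_le

end Pool.Agent.W_63dac5_h37A
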