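import Pool.Agent.W_63dac5_h37A.GamA
import Pool.Agent.W_63dac5_h39b.TGreen

/-!
# The large entries near the bottom of the stack (proofs row 568, B4), the mean
-/

set_option autoImplicit false

namespace Pool.Agent.W_63dac5_h37A

open ENNReal Finset
open Pool.Agent.W_MP_63dac5_pr Pool.Agent.W_63dac5_h37 Pool.Agent.W_63dac5_h39b

variable {μ : PMF ℕ} {A C : ℝ}

private lemma GamB_pow_mono (x : ℕ) {s t : ℝ} (h0 : 0 < s) (h : s ≤ t) :
    (x : ℝ≥0∞) ^ s ≤ (x : ℝ≥0∞) ^ t := by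
  rcases Nat.eq_zero_or_pos x with hx | hx
  · subst hx
    rw [Nat.cast_zero, ENNReal.zero_rpow_of_pos h0]
    exact bot_le
  · exact ENNReal.rpow_le_rpow_of_exponent_le (by exact_mod_cast hx) h

private lemma GamB_sum (c : ℝ) (hc : 0 ≤ c) (n : ℕ) :
    ∑ m ∈ range n, c / √(m : ℝ) ≤ 2 * c * √(n : ℝ) := by
  have key : ∀ M : ℕ, ∑ m ∈ range (M + 1), c / √(m : ℝ) ≤ 2 * c * √(M : ℝ) := by
    intro M
    induction M with
    | zero =>
      rw [zero_add, Finset.sum_range_one]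
      simp
    | succ M ih =>
      rw [Finset.sum_range_succ]
      set s : ℝ := √((M + 1 : ℕ) : ℝ) with hs
      set t : ℝ := √(M : ℝ) with ht
      have hs2 : s * s = (M : ℝ) + 1 := by
        rw [hs, Real.mul_self_sqrt (by positivity)]
        push_cast
        ring
      have ht2 : t * t = (M : ℝ) := by
        rw [ht, Real.mul_self_sqrt (by positivity)]
      have hs0 : 0 < s := Real.sqrt_pos.2 (by positivity)
      have h1 : 1 / s ≤ 2 * (s - t) := by
        rw [div_le_iff₀ hs0]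
        nlinarith [sq_nonneg (s - t)]
      have h2 : c / s = c * (1 / s) := by ring
      rw [h2]
      have h3 := mul_le_mul_of_nonneg_left h1 hc
      nlinarith [h3]
  rcases Nat.eq_zero_or_pos n with h0 | h0
  · subst h0
    simp
  · obtain ⟨M, rfl⟩ : ∃ M, n = M + 1 := ⟨n - 1, by omega⟩
    refine le_trans (key M) ?_
    refine mul_le_mul_of_nonneg_left ?_ (by positivity)
    refine Real.sqrt_le_sqrt ?_
    push_cast
    linarith

private lemma GamB_comm {α : Type*} (ν : α → ℝ≥0∞) (j m : ℕ) (f : List α → List α → ℝ≥0∞) :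
    Ex ν j (fun u => Ex ν m (fun v => f u v)) = Ex ν m (fun v => Ex ν j (fun u => f u v)) := by
  induction j generalizing f with
  | zero => rfl
  | succ j ih =>
    simp only [Ex]
    rw [Ex_tsum]
    refine tsum_congr fun a => ?_
    rw [Ex_mul_left, ih (fun u v => f (a :: u) v)]

/-- `T_green` summed over at most `H + ρ + 1` values of `Tw u` -/
lemma window_green {D : ℝ} (hD : 0 ≤ D) (hT : ∀ n k z : ℕ, ∑ m ∈ range n,
      Ex (nu μ) m (fun w => if Pw w ≤ k ∧ Tw w = z then 1 else 0) ≤ ENNReal.ofReal (D * (k + 1)))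
    (N I ρ H x y : ℕ) :
    ∑ j ∈ range N, Ex (nu μ) j (fun u =>
      if Pw u ≤ I ∧ x ≤ Tw u + y + ρ ∧ Tw u + y ≤ x + H then 1 else 0) ≤
      ENNReal.ofReal (D * (I + 1) * (H + ρ + 1)) := by
  have hpt : ∀ u : List (ℕ × ℕ),
      (if Pw u ≤ I ∧ x ≤ Tw u + y + ρ ∧ Tw u + y ≤ x + H then (1 : ℝ≥0∞) else 0) ≤
      ∑ i ∈ range (H + ρ + 1),
        (if Pw u ≤ I ∧ Tw u = (x - (y + ρ)) + i then (1 : ℝ≥0∞) else 0) := by
    intro u
    by_cases hc : Pw u ≤ I ∧ x ≤ Tw u + y + ρ ∧ Tw u + y ≤ x + H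
    · rw [if_pos hc]
      obtain ⟨c1, c2, c3⟩ := hc
      have hi : Tw u - (x - (y + ρ)) ∈ range (H + ρ + 1) := by
        rw [Finset.mem_range]
        omega
      refine le_trans ?_ (Finset.single_le_sum (f := fun i => if Pw u ≤ I ∧
        Tw u = (x - (y + ρ)) + i then (1 : ℝ≥0∞) else 0) (fun i _ => bot_le) hi)
      have hc' : Pw u ≤ I ∧ Tw u = (x - (y + ρ)) + (Tw u - (x - (y + ρ))) := ⟨c1, by omega⟩
      rw [if_pos hc']
    · rw [if_neg hc]
      exact bot_le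
  calc ∑ j ∈ range N, Ex (nu μ) j (fun u =>
      if Pw u ≤ I ∧ x ≤ Tw u + y + ρ ∧ Tw u + y ≤ x + H then 1 else 0)
      ≤ ∑ j ∈ range N, ∑ i ∈ range (H + ρ + 1), Ex (nu μ) j (fun u =>
          if Pw u ≤ I ∧ Tw u = (x - (y + ρ)) + i then 1 else 0) := by
        refine Finset.sum_le_sum fun j _ => ?_
        rw [← Ex_sum]
        exact Ex_mono _ _ fun u _ => hpt u
    _ = ∑ i ∈ range (H + ρ + 1), ∑ j ∈ range N, Ex (nu μ) j (fun u =>
          if Pw u ≤ I ∧ Tw u = (x - (y + ρ)) + i then 1 else 0) := Finset.sum_comm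
    _ ≤ ∑ i ∈ range (H + ρ + 1), ENNReal.ofReal (D * (I + 1)) :=
        Finset.sum_le_sum fun i _ => hT N I _
    _ = ENNReal.ofReal (D * (I + 1) * (H + ρ + 1)) := by
        have hcast : ((H + ρ + 1 : ℕ) : ℝ≥0∞) = ENNReal.ofReal ((H : ℝ) + ρ + 1) := by
          rw [← ENNReal.ofReal_natCast]
          push_cast
          rfl
        rw [Finset.sum_const, Finset.card_range, nsmul_eq_mul, hcast,
          ← ENNReal.ofReal_mul (by positivity)]
        congr 1
        ring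

/-- mirror image: `F_lam` for `1 ≤ m`, `lam μ s y ≤ Ks μ s` for `m = 0`, and `1 + ∑ 1 / √m ≤ 3 √N` -/
lemma sum_right (H : ∀ n, Hyp μ A C n) (hA : 1 ≤ A) {s : ℝ} (hs : 1 ≤ s) {N : ℕ} (hN : 1 ≤ N) :
    ∑ m ∈ range N, Ex (nu μ) m (fun v => ∑' a : ℕ × ℕ, nu μ a * ((a.2 - Pw v : ℕ) : ℝ≥0∞) ^ s) ≤
      ENNReal.ofReal (3 * A * √(N : ℝ)) * Ks μ s := by
  have hA0 : 0 ≤ A := by linarith
  have hterm : ∀ m : ℕ, Ex (nu μ) m (fun v => ∑' a : ℕ × ℕ, nu μ a *
      ((a.2 - Pw v : ℕ) : ℝ≥0∞) ^ s) ≤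
      ENNReal.ofReal ((if m = 0 then 1 else 0) + A / √(m : ℝ)) * Ks μ s := by
    intro m
    have h1 : Ex (nu μ) m (fun v => ∑' a : ℕ × ℕ, nu μ a * ((a.2 - Pw v : ℕ) : ℝ≥0∞) ^ s) =
        Ex (nu μ) m (fun v => lam μ s (Nw v)) := by
      rw [← Ex_mir (nu_swap μ)]
      refine Ex_congr _ _ fun v _ => ?_
      rw [← Nw_eq]
      exact tsum_nu_swap μ (fun a => ((a.1 - Nw v : ℕ) : ℝ≥0∞) ^ s)
    rw [h1]
    rcases Nat.eq_zero_or_pos m with h0 | h0
    · subst h0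
      rw [if_pos rfl]
      have h2 : Ex (nu μ) 0 (fun v => lam μ s (Nw v)) = lam μ s (Nw []) := rfl
      rw [h2]
      have h3 : (1 : ℝ) + A / √((0 : ℕ) : ℝ) = 1 := by simp
      rw [h3, ENNReal.ofReal_one, one_mul]
      unfold lam Ks
      refine ENNReal.tsum_le_tsum fun a => ?_
      refine mul_le_mul' (le_refl _) ?_
      refine le_trans ?_ (GamB_pow_mono a.1 (s := s) (t := s + 1) (by linarith) (by linarith))
      refine ENNReal.rpow_le_rpow ?_ (by linarith)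
      exact_mod_cast Nat.sub_le _ _
    · rw [if_neg (by omega), zero_add]
      exact F_lam (H (m + 1)) hA0 h0 (Nat.lt_succ_self m) hs
  refine le_trans (Finset.sum_le_sum fun m _ => hterm m) ?_
  rw [← Finset.sum_mul]
  refine mul_le_mul' ?_ (le_refl _)
  rw [← ENNReal.ofReal_sum_of_nonneg (fun m _ => by positivity)]
  refine ENNReal.ofReal_le_ofReal ?_
  rw [Finset.sum_add_distrib]
  have h1 := GamB_sum A hA0 N
  have h2 : ∑ m ∈ range N, (if m = 0 then (1 : ℝ) else 0) ≤ 1 := by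
    rw [Finset.sum_ite_eq' (range N) 0 (fun _ => (1 : ℝ))]
    split_ifs <;> norm_num
  have h3 : (1 : ℝ) ≤ √(N : ℝ) := by
    rw [Real.one_le_sqrt]
    exact_mod_cast hN
  have h4 : (1 : ℝ) ≤ A * √(N : ℝ) := by
    calc (1 : ℝ) = 1 * 1 := (one_mul 1).symm
      _ ≤ _ := mul_le_mul hA h3 zero_le_one hA0
  linarith

open Classical in
/-- `Gam_le_psi`, `Ex_split` with `d = (0, 0)`; exchange the sums over `n` and `j` (the pairs `(j, n - 1 - j)` are pairs
of numbers below `N`), then `window_green` for fixed `a`, `v` (`x = a.1 + Rw v`, `y = a.2`) and `sum_right` -/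
theorem Gam_mean {D : ℝ} (hD : 0 ≤ D) (hT : ∀ n k z : ℕ, ∑ m ∈ range n,
      Ex (nu μ) m (fun w => if Pw w ≤ k ∧ Tw w = z then 1 else 0) ≤ ENNReal.ofReal (D * (k + 1)))
    (H : ∀ n, Hyp μ A C n) (hA : 1 ≤ A) {s : ℝ} (hs : 1 ≤ s) (I ρ L : ℕ) {N : ℕ} (hN : 1 ≤ N) :
    ∑ n ∈ range N, Ex (nu μ) n (fun w => if Pw w ≤ I ∧ Rw w ≤ ρ then Gam s L (run [] w) else 0) ≤
      ENNReal.ofReal (D * (I + 1) * (L + ρ + 1) * (3 * A * √(N : ℝ))) * Ks μ s := by
  have hs0 : 0 < s := by linarith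
  have hA0 : 0 ≤ A := by linarith
  set f : ℕ → ℕ → ℝ≥0∞ := fun j m => Ex (nu μ) j (fun u => ∑' a, nu μ a *
    Ex (nu μ) m (fun v => psi s I ρ L u a v)) with hf
  have h1 : ∑ n ∈ range N, Ex (nu μ) n (fun w => if Pw w ≤ I ∧ Rw w ≤ ρ then
      Gam s L (run [] w) else 0) ≤ ∑ n ∈ range N, ∑ j ∈ range n, f j (n - 1 - j) := by
    refine Finset.sum_le_sum fun n _ => ?_
    rw [hf, ← Ex_split (nu μ) ((0, 0) : ℕ × ℕ) n (psi s I ρ L)]
    refine Ex_mono _ _ fun w hw => ?_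
    by_cases hc : Pw w ≤ I ∧ Rw w ≤ ρ
    · rw [if_pos hc]
      have := Gam_le_psi (H := L) hs0 hc.1 hc.2
      rw [hw] at this
      exact this
    · rw [if_neg hc]
      exact bot_le
  have h2 : ∑ n ∈ range N, ∑ j ∈ range n, f j (n - 1 - j) ≤
      ∑ m ∈ range N, ∑ j ∈ range N, f j m := by
    rw [Finset.sum_comm' (s' := fun j => Finset.Ico (j + 1) N) (t' := range N)
      (by intro n j; simp only [Finset.mem_range, Finset.mem_Ico]; omega)]
    rw [Finset.sum_comm (s := range N) (t := range N)]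
    refine Finset.sum_le_sum fun j _ => ?_
    rw [Finset.sum_Ico_eq_sum_range]
    have : ∀ i ∈ range (N - (j + 1)), f j (j + 1 + i - 1 - j) = f j i := by
      intro i _
      congr 1
      omega
    rw [Finset.sum_congr rfl this]
    exact Finset.sum_le_sum_of_subset (Finset.range_mono (by omega))
  have h3 : ∀ m : ℕ, ∑ j ∈ range N, f j m ≤ ENNReal.ofReal (D * (I + 1) * (L + ρ + 1)) *
      Ex (nu μ) m (fun v => ∑' a : ℕ × ℕ, nu μ a * ((a.2 - Pw v : ℕ) : ℝ≥0∞) ^ s) := by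
    intro m
    have e1 : ∀ j, f j m = ∑' a, nu μ a * Ex (nu μ) m (fun v =>
        Ex (nu μ) j (fun u => psi s I ρ L u a v)) := by
      intro j
      rw [hf]
      simp only
      rw [Ex_tsum]
      refine tsum_congr fun a => ?_
      rw [Ex_mul_left, GamB_comm]
    rw [Finset.sum_congr rfl fun j _ => e1 j]
    rw [← Summable.tsum_finsetSum (fun j _ => ENNReal.summable)]
    rw [Ex_tsum, ← ENNReal.tsum_mul_left]
    refine ENNReal.tsum_le_tsum fun a => ?_
    rw [← Finset.mul_sum, ← Ex_sum, Ex_mul_left, mul_left_comm]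
    refine mul_le_mul' (le_refl _) ?_
    rw [← Ex_mul_left]
    refine Ex_mono _ _ fun v _ => ?_
    have e2 : ∀ j, Ex (nu μ) j (fun u => psi s I ρ L u a v) = ((a.2 - Pw v : ℕ) : ℝ≥0∞) ^ s *
        Ex (nu μ) j (fun u => if Pw u ≤ I ∧ a.1 + Rw v ≤ Tw u + a.2 + ρ ∧
          Tw u + a.2 ≤ a.1 + Rw v + L then 1 else 0) := by
      intro j
      rw [← Ex_mul_left]
      refine Ex_congr _ _ fun u _ => ?_
      unfold psi
      by_cases hc : Pw u ≤ I ∧ a.1 + Rw v ≤ Tw u + a.2 + ρ ∧ Tw u + a.2 ≤ a.1 + Rw v + L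
      · rw [if_pos hc, if_pos hc, mul_one]
      · rw [if_neg hc, if_neg hc, mul_zero]
    rw [Finset.sum_congr rfl fun j _ => e2 j, ← Finset.mul_sum, mul_comm]
    exact mul_le_mul' (window_green hD hT N I ρ L (a.1 + Rw v) a.2) (le_refl _)
  refine le_trans h1 (le_trans h2 ?_)
  refine le_trans (Finset.sum_le_sum fun m _ => h3 m) ?_
  rw [← Finset.mul_sum]
  refine le_trans (mul_le_mul' (le_refl _) (sum_right H hA hs hN)) ?_
  rw [← mul_assoc, ← ENNReal.ofReal_mul (by positivity)]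

end Pool.Agent.W_63dac5_h37A
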