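import Pool.Agent.W_63dac5_h37A.GamB

/-!
# Good stacks (proofs row 568, B5)
-/

set_option autoImplicit false

namespace Pool.Agent.W_63dac5_h37A

open ENNReal Finset
open Pool.Agent.W_MP_63dac5_pr Pool.Agent.W_63dac5_h37 Pool.Agent.W_63dac5_h39b

variable {μ : PMF ℕ} {A C : ℝ}

open Classical in
/-- If `Good s κ (2 ^ i) r` fails for the bottom part `t`, then `2 ^ j ≤ t.sum < 2 ^ (j + 1)` for some `i ≤ j`
(`Nat.log 2`), and `PS s t > (2 ^ j) ^ (1 + κ)`, `PS s t ≤ Gam s (2 ^ (j + 1)) r` (`PS_le_Gam`). -/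
lemma not_good_le {s κ : ℝ} (hs : 0 < s) (hκ : 0 < κ) (i : ℕ) (r : List ℕ) :
    (if ¬ Good s κ (2 ^ i) r then (1 : ℝ≥0∞) else 0) ≤
      ∑' j : ℕ, ENNReal.ofReal (((2 : ℝ) ^ (i + j)) ^ (-(1 + κ))) * Gam s (2 ^ (i + j + 1)) r := by
  by_cases hG : Good s κ (2 ^ i) r
  · rw [if_neg (not_not.2 hG)]
    exact bot_le
  rw [if_pos hG]
  unfold Good at hG
  push Not at hG
  obtain ⟨t, ht, h1, h2⟩ := hG
  have hpos : 0 < t.sum := lt_of_lt_of_le (by positivity) h1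
  set l := Nat.log 2 t.sum with hl
  have hl1 : 2 ^ l ≤ t.sum := Nat.pow_log_le_self 2 hpos.ne'
  have hl2 : t.sum < 2 ^ (l + 1) := Nat.lt_pow_succ_log_self (by norm_num) _
  have hil : i ≤ l := Nat.le_log_of_pow_le (by norm_num) h1
  obtain ⟨j, hj⟩ := Nat.exists_eq_add_of_le hil
  refine le_trans ?_ (ENNReal.le_tsum j)
  rw [← hj]
  have h3 : ENNReal.ofReal (PS s t) ≤ Gam s (2 ^ (l + 1)) r := PS_le_Gam hs ht hl2.le
  refine le_trans ?_ (mul_le_mul_right h3 _)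
  rw [← ENNReal.ofReal_mul (by positivity)]
  refine ENNReal.one_le_ofReal.2 ?_
  have h4 : ((2 : ℝ) ^ l) ^ (1 + κ) ≤ PS s t := by
    refine le_trans ?_ h2.le
    refine Real.rpow_le_rpow (by positivity) ?_ (by linarith)
    exact_mod_cast hl1
  have hx : (0 : ℝ) < (2 : ℝ) ^ l := by positivity
  calc (1 : ℝ) = ((2 : ℝ) ^ l) ^ (-(1 + κ)) * ((2 : ℝ) ^ l) ^ (1 + κ) := by
        rw [← Real.rpow_add hx]
        simp
    _ ≤ _ := mul_le_mul_of_nonneg_left h4 (by positivity)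

open Classical in
private lemma GoodB_pull {s κ : ℝ} (hs : 0 < s) (hκ : 0 < κ) (i I ρ n : ℕ) :
    Ex (nu μ) n (fun w => if Pw w ≤ I ∧ Rw w ≤ ρ ∧ ¬ Good s κ (2 ^ i) (run [] w) then 1 else 0) ≤
      ∑' j : ℕ, ENNReal.ofReal (((2 : ℝ) ^ (i + j)) ^ (-(1 + κ))) *
        Ex (nu μ) n (fun w => if Pw w ≤ I ∧ Rw w ≤ ρ then Gam s (2 ^ (i + j + 1)) (run [] w)
          else 0) := by
  have h1 : ∀ j : ℕ, ENNReal.ofReal (((2 : ℝ) ^ (i + j)) ^ (-(1 + κ))) *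
        Ex (nu μ) n (fun w => if Pw w ≤ I ∧ Rw w ≤ ρ then Gam s (2 ^ (i + j + 1)) (run [] w)
          else 0) = Ex (nu μ) n (fun w => ENNReal.ofReal (((2 : ℝ) ^ (i + j)) ^ (-(1 + κ))) *
            (if Pw w ≤ I ∧ Rw w ≤ ρ then Gam s (2 ^ (i + j + 1)) (run [] w) else 0)) :=
    fun j => (Ex_mul_left _ _ _ _).symm
  rw [tsum_congr h1, ← Ex_tsum]
  refine Ex_mono _ _ fun w _ => ?_
  by_cases hPR : Pw w ≤ I ∧ Rw w ≤ ρ
  · have h2 : (if Pw w ≤ I ∧ Rw w ≤ ρ ∧ ¬ Good s κ (2 ^ i) (run [] w) then (1 : ℝ≥0∞) else 0) =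
        if ¬ Good s κ (2 ^ i) (run [] w) then 1 else 0 := by
      simp [hPR.1, hPR.2]
    rw [h2]
    simp only [if_pos hPR]
    exact not_good_le hs hκ i _
  · rw [if_neg (fun h => hPR ⟨h.1, h.2.1⟩)]
    exact bot_le

open Classical in
/-- `not_good_le`, `Ex_tsum`, `Gam_mean`: the sum is at most `D (I + 1) 3 A √N Ks ∑_j 2^(-(i+j)(1+κ)) (2^(i+j+1) + ρ + 1)`
`≤ C' √N 2^(-i κ)` (geometric series), which is `≤ δ √N` for a large `i`; `c₀ = 2 ^ i`. -/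
theorem good_bound (h0 : μ 0 = 0) (H : ∀ n, Hyp μ A C n) (hA : 1 ≤ A) (hC : 0 ≤ C) {s : ℝ}
    (hs : 1 < s) (hK : Ks μ s ≠ ∞) {κ : ℝ} (hκ : 0 < κ) (I ρ : ℕ) {δ : ℝ} (hδ : 0 < δ) :
    ∃ c₀ : ℕ, ∀ N : ℕ, 1 ≤ N → ∑ n ∈ range N,
      Ex (nu μ) n (fun w => if Pw w ≤ I ∧ Rw w ≤ ρ ∧ ¬ Good s κ c₀ (run [] w) then 1 else 0) ≤
        ENNReal.ofReal (δ * √(N : ℝ)) := by
  have hs0 : 0 < s := by linarith
  have hK1 : Ks μ 1 ≠ ∞ := ne_top_of_le_ne_top hK (Ks_mono μ zero_le_one hs.le)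
  obtain ⟨D, hD, hT⟩ := T_green h0 H hC hK1
  set q : ℝ := (2 : ℝ) ^ (-κ) with hq
  have hq0 : 0 < q := by positivity
  have hq1 : q < 1 := Real.rpow_lt_one_of_one_lt_of_neg (by norm_num) (by linarith)
  set K : ℝ := (Ks μ s).toReal with hKdef
  have hK0 : 0 ≤ K := ENNReal.toReal_nonneg
  have hKe : Ks μ s = ENNReal.ofReal K := (ENNReal.ofReal_toReal hK).symm
  set M : ℝ := D * (I + 1) * (ρ + 3) * (3 * A) * K * (1 - q)⁻¹ with hM
  have h1q : 0 < 1 - q := by linarith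
  have hM0 : 0 ≤ M := by positivity
  obtain ⟨i, hi⟩ : ∃ i : ℕ, M * q ^ i ≤ δ := by
    have ht : Filter.Tendsto (fun i : ℕ => M * q ^ i) Filter.atTop (nhds (M * 0)) :=
      (tendsto_pow_atTop_nhds_zero_of_lt_one hq0.le hq1).const_mul M
    rw [mul_zero] at ht
    exact ((ht.eventually (Iio_mem_nhds hδ)).exists).imp fun i h => le_of_lt h
  refine ⟨2 ^ i, fun N hN => ?_⟩
  have hc : ∀ j : ℕ, ENNReal.ofReal (((2 : ℝ) ^ (i + j)) ^ (-(1 + κ))) *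
      (ENNReal.ofReal (D * (I + 1) * ((2 ^ (i + j + 1) : ℕ) + ρ + 1) * (3 * A * √(N : ℝ))) *
        Ks μ s) ≤ ENNReal.ofReal (D * (I + 1) * (ρ + 3) * (3 * A) * K * √(N : ℝ) * q ^ i) *
          ENNReal.ofReal q ^ j := by
    intro j
    rw [hKe, ← ENNReal.ofReal_mul (by positivity), ← ENNReal.ofReal_mul (by positivity),
      ← ENNReal.ofReal_pow hq0.le, ← ENNReal.ofReal_mul (by positivity)]
    refine ENNReal.ofReal_le_ofReal ?_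
    have hx : (0 : ℝ) < (2 : ℝ) ^ (i + j) := by positivity
    have hx1 : (1 : ℝ) ≤ (2 : ℝ) ^ (i + j) := one_le_pow₀ (by norm_num)
    have e1 : ((2 : ℝ) ^ (i + j)) ^ (-(1 + κ)) * (2 : ℝ) ^ (i + j) = q ^ i * q ^ j := by
      have e2 : ((2 : ℝ) ^ (i + j)) ^ (-(1 + κ)) * (2 : ℝ) ^ (i + j) =
          ((2 : ℝ) ^ (i + j)) ^ (-κ) := by
        conv_lhs => rw [← Real.rpow_one ((2 : ℝ) ^ (i + j)), ← Real.rpow_mul hx.le,
          ← Real.rpow_add hx]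
        congr 1
        ring
      rw [e2, ← pow_add, hq, ← Real.rpow_natCast, ← Real.rpow_natCast, ← Real.rpow_mul (by norm_num),
        ← Real.rpow_mul (by norm_num)]
      congr 1
      ring
    have e3 : ((2 ^ (i + j + 1) : ℕ) : ℝ) + ρ + 1 ≤ (ρ + 3) * (2 : ℝ) ^ (i + j) := by
      push_cast
      rw [pow_succ]
      have hρ : (0 : ℝ) ≤ ρ := Nat.cast_nonneg _
      nlinarith
    have e4 : ((2 : ℝ) ^ (i + j)) ^ (-(1 + κ)) * (((2 ^ (i + j + 1) : ℕ) : ℝ) + ρ + 1) ≤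
        (ρ + 3) * (q ^ i * q ^ j) := by
      rw [← e1]
      calc ((2 : ℝ) ^ (i + j)) ^ (-(1 + κ)) * (((2 ^ (i + j + 1) : ℕ) : ℝ) + ρ + 1)
          ≤ ((2 : ℝ) ^ (i + j)) ^ (-(1 + κ)) * ((ρ + 3) * (2 : ℝ) ^ (i + j)) :=
            mul_le_mul_of_nonneg_left e3 (by positivity)
        _ = _ := by ring
    have e5 : 0 ≤ D * (I + 1) * (3 * A * √(N : ℝ)) * K := by positivity
    calc ((2 : ℝ) ^ (i + j)) ^ (-(1 + κ)) *
        (D * (I + 1) * (((2 ^ (i + j + 1) : ℕ) : ℝ) + ρ + 1) * (3 * A * √(N : ℝ)) * K)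
        = (D * (I + 1) * (3 * A * √(N : ℝ)) * K) *
          (((2 : ℝ) ^ (i + j)) ^ (-(1 + κ)) * (((2 ^ (i + j + 1) : ℕ) : ℝ) + ρ + 1)) := by ring
      _ ≤ (D * (I + 1) * (3 * A * √(N : ℝ)) * K) * ((ρ + 3) * (q ^ i * q ^ j)) :=
          mul_le_mul_of_nonneg_left e4 e5
      _ = _ := by ring
  calc ∑ n ∈ range N,
      Ex (nu μ) n (fun w => if Pw w ≤ I ∧ Rw w ≤ ρ ∧ ¬ Good s κ (2 ^ i) (run [] w) then 1 else 0)
      ≤ ∑ n ∈ range N, ∑' j : ℕ, ENNReal.ofReal (((2 : ℝ) ^ (i + j)) ^ (-(1 + κ))) *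
        Ex (nu μ) n (fun w => if Pw w ≤ I ∧ Rw w ≤ ρ then Gam s (2 ^ (i + j + 1)) (run [] w)
          else 0) := Finset.sum_le_sum fun n _ => GoodB_pull hs0 hκ i I ρ n
    _ = ∑' j : ℕ, ENNReal.ofReal (((2 : ℝ) ^ (i + j)) ^ (-(1 + κ))) * ∑ n ∈ range N,
        Ex (nu μ) n (fun w => if Pw w ≤ I ∧ Rw w ≤ ρ then Gam s (2 ^ (i + j + 1)) (run [] w)
          else 0) := by
        rw [← Summable.tsum_finsetSum (fun _ _ => ENNReal.summable)]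
        exact tsum_congr fun j => (Finset.mul_sum _ _ _).symm
    _ ≤ ∑' j : ℕ, ENNReal.ofReal (((2 : ℝ) ^ (i + j)) ^ (-(1 + κ))) *
        (ENNReal.ofReal (D * (I + 1) * ((2 ^ (i + j + 1) : ℕ) + ρ + 1) * (3 * A * √(N : ℝ))) *
          Ks μ s) := by
        refine ENNReal.tsum_le_tsum fun j => ?_
        exact mul_le_mul_right (Gam_mean hD hT H hA hs.le I ρ (2 ^ (i + j + 1)) hN) _
    _ ≤ ∑' j : ℕ, ENNReal.ofReal (D * (I + 1) * (ρ + 3) * (3 * A) * K * √(N : ℝ) * q ^ i) *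
          ENNReal.ofReal q ^ j := ENNReal.tsum_le_tsum hc
    _ = ENNReal.ofReal (D * (I + 1) * (ρ + 3) * (3 * A) * K * √(N : ℝ) * q ^ i) *
          ENNReal.ofReal ((1 - q)⁻¹) := by
        rw [ENNReal.tsum_mul_left, ENNReal.tsum_geometric, ← ENNReal.ofReal_one,
          ← ENNReal.ofReal_sub _ hq0.le, ENNReal.ofReal_inv_of_pos h1q]
    _ = ENNReal.ofReal (M * q ^ i * √(N : ℝ)) := by
        rw [← ENNReal.ofReal_mul (by positivity)]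
        congr 1
        rw [hM]
        ring
    _ ≤ _ := ENNReal.ofReal_le_ofReal (mul_le_mul_of_nonneg_right hi (Real.sqrt_nonneg _))

end Pool.Agent.W_63dac5_h37A
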